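import Mathlib

set_option autoImplicit false

/-!
Montgomery's `ℓ^q` inequality for the sums over sets of integers with few repeated differences:
definitions and the statements of the pieces (project of helper1, `MP_2a1f0e_nt`).
-/

namespace Pool.Agent.K6.H1.MQ

open Finset

noncomputable section

/-- `n^{it}` for `n ≥ 1` -/
def en (n : ℕ) (t : ℝ) : ℂ := Complex.exp (Complex.I * (t : ℂ) * ((Real.log (n : ℝ) : ℝ) : ℂ))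

/-- every nonzero integer is in at most `R` ways a difference of two elements of `W` -/
def FewDiff (W : Finset ℕ) (R : ℕ) : Prop :=
  ∀ h : ℤ, h ≠ 0 → ((W ×ˢ W).filter (fun p => (p.1 : ℤ) - p.2 = h)).card ≤ R

/-- the Dirichlet polynomial -/
def DD (N : ℕ) (b : ℕ → ℂ) (t : ℝ) : ℂ := ∑ n ∈ Icc N (2 * N), b n * en n t

/-- POW: powers of Dirichlet polynomials -/
def S_POW : Prop := ∀ (k : ℕ) (ε : ℝ), 0 < ε → ∃ C : ℝ, 1 ≤ C ∧ ∀ (N : ℕ) (b : ℕ → ℂ), 1 ≤ N →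
  (∀ n ∈ Icc N (2 * N), ‖b n‖ ≤ 1) → ∃ c : ℕ → ℂ, (∀ n, ‖c n‖ ≤ C * (N : ℝ) ^ ε) ∧
    ∀ t : ℝ, DD N b t ^ k = ∑ n ∈ Icc 1 ((2 * N) ^ k), c n * en n t

/-- LV: large values on sets with few repeated differences -/
def S_LV : Prop := ∀ ε : ℝ, 0 < ε → ∃ C : ℝ, 1 ≤ C ∧ ∀ (L T R : ℕ) (W : Finset ℕ) (c : ℕ → ℂ) (B lam : ℝ),
  1 ≤ L → 1 ≤ T → 1 ≤ R → W ⊆ Icc 1 T → FewDiff W R → 0 < lam → (∀ n, ‖c n‖ ≤ B) →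
  (∀ t ∈ W, lam ≤ ‖∑ n ∈ Icc 1 L, c n * en n t‖) →
  (W.card : ℝ) ≤ C * (T : ℝ) ^ ε * (B ^ 2 * L ^ 2 / lam ^ 2 + B ^ 4 * L ^ 3 * √(R * T) / lam ^ 4)

/-- FIN: the moments -/
def S_FIN : Prop := ∀ q A ε : ℝ, 0 < q → 1 ≤ A → 0 < ε → ∃ K : ℝ, ∀ (N T R : ℕ) (W : Finset ℕ) (b : ℕ → ℂ),
  1 ≤ N → N ≤ T → (T : ℝ) ≤ (N : ℝ) ^ A → 1 ≤ R → W ⊆ Icc 1 T → FewDiff W R →
  (∀ n ∈ Icc N (2 * N), ‖b n‖ ≤ 1) →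
  ∑ t ∈ W, ‖DD N b t‖ ^ q ≤
    K * (N : ℝ) ^ ε * √R * ((N : ℝ) ^ q + √T * (N : ℝ) ^ (3 * q / 4))

/-- POLY: the differences of the values of a polynomial -/
def S_POLY : Prop := ∀ P : Polynomial ℤ, 2 ≤ P.natDegree → ∀ ε : ℝ, 0 < ε → ∃ C : ℝ, 1 ≤ C ∧
  ∀ (T : ℕ) (W : Finset ℕ), 1 ≤ T → W ⊆ Icc 1 T → (∀ t ∈ W, ∃ j : ℤ, P.eval j = t) →
    ∀ h : ℤ, h ≠ 0 → (((W ×ˢ W).filter (fun p => (p.1 : ℤ) - p.2 = h)).card : ℝ) ≤ C * (T : ℝ) ^ ε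

end

end Pool.Agent.K6.H1.MQ
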