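import Pool.Agent.K6.H1.MQ.Four

set_option autoImplicit false

/-!
Halász–Montgomery duality and the large values estimate `S_LV`.
-/

namespace Pool.Agent.K6.H1.MQ

open MeasureTheory Set Filter Topology Finset

noncomputable section

theorem summ_exp {V : ℝ} (hV : 0 < V) : Summable (fun n : ℕ => Real.exp (-((n : ℝ) / V))) := by
  have h : ∀ n : ℕ, Real.exp (-((n : ℝ) / V)) = Real.exp (-(1 / V)) ^ n := by
    intro n
    rw [← Real.exp_nat_mul]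
    congr 1
    ring
  simp_rw [h]
  apply summable_geometric_of_lt_one (Real.exp_pos _).le
  rw [Real.exp_lt_one_iff]
  have : 0 < 1 / V := by positivity
  linarith

theorem summ_au {V : ℝ} (hV : 0 < V) (u : ℝ) :
    Summable (fun n : ℕ => au u n * ((Real.exp (-((n : ℝ) / V)) : ℝ) : ℂ)) := by
  refine Summable.of_norm_bounded (summ_exp hV) fun n => ?_
  rw [norm_mul, Complex.norm_real, Real.norm_of_nonneg (Real.exp_pos _).le]
  have : ‖au u n‖ ≤ 1 := by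
    unfold au
    split_ifs
    · simp
    · rw [en_norm]
  have h2 := Real.exp_pos (-((n : ℝ) / V))
  nlinarith

theorem en_conj (n : ℕ) (s t : ℝ) : en n s * (starRingEnd ℂ) (en n t) = en n (s - t) := by
  unfold en
  rw [← Complex.exp_conj, ← Complex.exp_add]
  congr 1
  simp only [map_mul, Complex.conj_I, Complex.conj_ofReal]
  push_cast
  ring

/-- the quadratic form -/
theorem quad {V : ℝ} (hV : 0 < V) (W : Finset ℕ) (θ : ℕ → ℂ) (hθ : ∀ t ∈ W, ‖θ t‖ ≤ 1) (L : ℕ) :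
    ∑ n ∈ Finset.Icc 1 L, Real.exp (-((n : ℝ) / V)) * ‖∑ t ∈ W, θ t * en n t‖ ^ 2 ≤
      ∑ p ∈ W ×ˢ W, ‖KV V ((p.1 : ℝ) - p.2)‖ := by
  set g : ℕ → ℂ := fun n => ∑ p ∈ W ×ˢ W, θ p.1 * (starRingEnd ℂ) (θ p.2) *
    (au ((p.1 : ℝ) - p.2) n * ((Real.exp (-((n : ℝ) / V)) : ℝ) : ℂ)) with hg
  have h1 : HasSum g (∑ p ∈ W ×ˢ W, θ p.1 * (starRingEnd ℂ) (θ p.2) * KV V ((p.1 : ℝ) - p.2)) := by
    refine hasSum_sum fun p _ => ?_
    exact (summ_au hV _).hasSum.mul_left _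
  have h2 : ∀ n : ℕ, g n = ((if n = 0 then (0 : ℝ) else
      Real.exp (-((n : ℝ) / V)) * ‖∑ t ∈ W, θ t * en n t‖ ^ 2 : ℝ) : ℂ) := by
    intro n
    rw [hg]
    simp only
    rcases Nat.eq_zero_or_pos n with h0 | h0
    · subst h0
      simp [au]
    · rw [if_neg (by omega)]
      have e1 : ((‖∑ t ∈ W, θ t * en n t‖ ^ 2 : ℝ) : ℂ) =
          (∑ t ∈ W, θ t * en n t) * (starRingEnd ℂ) (∑ t ∈ W, θ t * en n t) := by
        rw [Complex.mul_conj, Complex.normSq_eq_norm_sq]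
      rw [Complex.ofReal_mul, e1, map_sum, Finset.sum_mul_sum, ← Finset.sum_product', Finset.mul_sum]
      refine Finset.sum_congr rfl fun p _ => ?_
      unfold au
      rw [if_neg (by omega), map_mul]
      rw [show (p.1 : ℝ) - p.2 = ((p.1 : ℕ) : ℝ) - ((p.2 : ℕ) : ℝ) from rfl, ← en_conj]
      ring
  have h3 : HasSum (fun n : ℕ => (if n = 0 then (0 : ℝ) else
      Real.exp (-((n : ℝ) / V)) * ‖∑ t ∈ W, θ t * en n t‖ ^ 2 : ℝ))
      (∑ p ∈ W ×ˢ W, θ p.1 * (starRingEnd ℂ) (θ p.2) * KV V ((p.1 : ℝ) - p.2)).re := by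
    have h4 := Complex.hasSum_re h1
    refine h4.congr_fun ?_
    intro n
    rw [h2, Complex.ofReal_re]
  have h5 := sum_le_hasSum (Finset.Icc 1 L) (fun n _ => by
    split_ifs
    · exact le_rfl
    · positivity) h3
  have h6 : ∑ n ∈ Finset.Icc 1 L, Real.exp (-((n : ℝ) / V)) * ‖∑ t ∈ W, θ t * en n t‖ ^ 2 =
      ∑ n ∈ Finset.Icc 1 L, (if n = 0 then (0 : ℝ) else
      Real.exp (-((n : ℝ) / V)) * ‖∑ t ∈ W, θ t * en n t‖ ^ 2 : ℝ) := by
    refine Finset.sum_congr rfl fun n hn => ?_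
    have := (Finset.mem_Icc.1 hn).1
    rw [if_neg (by omega)]
  rw [h6]
  refine h5.trans ?_
  refine (Complex.re_le_norm _).trans ?_
  refine (norm_sum_le _ _).trans ?_
  refine Finset.sum_le_sum fun p hp1 => ?_
  rw [Finset.mem_product] at hp1
  rw [norm_mul, norm_mul, RCLike.norm_conj]
  have a1 := hθ _ hp1.1
  have a2 := hθ _ hp1.2
  have a3 := norm_nonneg (θ p.1)
  have a4 := norm_nonneg (θ p.2)
  have a5 := norm_nonneg (KV V ((p.1 : ℝ) - p.2))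
  have a6 : ‖θ p.1‖ * ‖θ p.2‖ ≤ 1 := by nlinarith
  nlinarith

/-- Halász–Montgomery -/
theorem HM (L : ℕ) (hL : 1 ≤ L) (W : Finset ℕ) (c : ℕ → ℂ) (B lam : ℝ) (hlam : 0 < lam)
    (hc : ∀ n, ‖c n‖ ≤ B) (hW : ∀ t ∈ W, lam ≤ ‖∑ n ∈ Finset.Icc 1 L, c n * en n t‖) :
    lam ^ 2 * (W.card : ℝ) ^ 2 ≤ 3 * B ^ 2 * L * ∑ p ∈ W ×ˢ W, ‖KV L ((p.1 : ℝ) - p.2)‖ := by
  have hB : 0 ≤ B := (norm_nonneg _).trans (hc 0)
  have hL' : (0 : ℝ) < L := by exact_mod_cast hL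
  -- unimodular coefficients
  set S : ℕ → ℂ := fun t => ∑ n ∈ Finset.Icc 1 L, c n * en n t with hS
  set θ : ℕ → ℂ := fun t => (starRingEnd ℂ) (S t) / ‖S t‖ with hθ
  have hSpos : ∀ t ∈ W, 0 < ‖S t‖ := fun t ht => lt_of_lt_of_le hlam (hW t ht)
  have hθ1 : ∀ t ∈ W, ‖θ t‖ ≤ 1 := by
    intro t ht
    rw [hθ]
    simp only
    rw [norm_div, RCLike.norm_conj, Complex.norm_real, Real.norm_of_nonneg (norm_nonneg _),
      div_self (hSpos t ht).ne']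
  have hθS : ∀ t ∈ W, θ t * S t = ((‖S t‖ : ℝ) : ℂ) := by
    intro t ht
    have h0 : ((‖S t‖ : ℝ) : ℂ) ≠ 0 := by exact_mod_cast (hSpos t ht).ne'
    rw [hθ]
    simp only
    rw [div_mul_eq_mul_div, mul_comm, Complex.mul_conj, Complex.normSq_eq_norm_sq, div_eq_iff h0]
    push_cast
    ring
  have h1 : lam * W.card ≤ ∑ t ∈ W, ‖S t‖ := by
    calc lam * W.card = ∑ t ∈ W, lam := by rw [Finset.sum_const, nsmul_eq_mul]; ring
      _ ≤ _ := Finset.sum_le_sum hW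
  have h2 : ((∑ t ∈ W, ‖S t‖ : ℝ) : ℂ) = ∑ n ∈ Finset.Icc 1 L, c n * ∑ t ∈ W, θ t * en n t := by
    rw [Complex.ofReal_sum]
    calc ∑ t ∈ W, ((‖S t‖ : ℝ) : ℂ) = ∑ t ∈ W, θ t * S t :=
          Finset.sum_congr rfl fun t ht => (hθS t ht).symm
      _ = ∑ t ∈ W, ∑ n ∈ Finset.Icc 1 L, c n * (θ t * en n t) := by
          refine Finset.sum_congr rfl fun t _ => ?_
          rw [hS]
          simp only
          rw [Finset.mul_sum]
          exact Finset.sum_congr rfl fun n _ => by ring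
      _ = ∑ n ∈ Finset.Icc 1 L, ∑ t ∈ W, c n * (θ t * en n t) := Finset.sum_comm
      _ = _ := Finset.sum_congr rfl fun n _ => by rw [Finset.mul_sum]
  have h3 : ∑ t ∈ W, ‖S t‖ ≤ B * ∑ n ∈ Finset.Icc 1 L, ‖∑ t ∈ W, θ t * en n t‖ := by
    have h4 : 0 ≤ ∑ t ∈ W, ‖S t‖ := Finset.sum_nonneg fun t _ => norm_nonneg _
    calc ∑ t ∈ W, ‖S t‖ = ‖((∑ t ∈ W, ‖S t‖ : ℝ) : ℂ)‖ := by
          rw [Complex.norm_real, Real.norm_of_nonneg h4]
      _ = ‖∑ n ∈ Finset.Icc 1 L, c n * ∑ t ∈ W, θ t * en n t‖ := by rw [h2]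
      _ ≤ ∑ n ∈ Finset.Icc 1 L, ‖c n * ∑ t ∈ W, θ t * en n t‖ := norm_sum_le _ _
      _ ≤ ∑ n ∈ Finset.Icc 1 L, B * ‖∑ t ∈ W, θ t * en n t‖ := by
          refine Finset.sum_le_sum fun n _ => ?_
          rw [norm_mul]
          exact mul_le_mul_of_nonneg_right (hc n) (norm_nonneg _)
      _ = _ := by rw [Finset.mul_sum]
  have h5 : (∑ n ∈ Finset.Icc 1 L, ‖∑ t ∈ W, θ t * en n t‖) ^ 2 ≤
      L * ∑ n ∈ Finset.Icc 1 L, ‖∑ t ∈ W, θ t * en n t‖ ^ 2 := by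
    have := sq_sum_le_card_mul_sum_sq (s := Finset.Icc 1 L) (f := fun n => ‖∑ t ∈ W, θ t * en n t‖)
    rw [Nat.card_Icc, Nat.add_sub_cancel] at this
    exact this
  have h6 : ∑ n ∈ Finset.Icc 1 L, ‖∑ t ∈ W, θ t * en n t‖ ^ 2 ≤
      3 * ∑ n ∈ Finset.Icc 1 L, Real.exp (-((n : ℝ) / L)) * ‖∑ t ∈ W, θ t * en n t‖ ^ 2 := by
    rw [Finset.mul_sum]
    refine Finset.sum_le_sum fun n hn => ?_
    have hn' := (Finset.mem_Icc.1 hn).2
    have h7 : (n : ℝ) / L ≤ 1 := by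
      rw [div_le_one hL']; exact_mod_cast hn'
    have h8 : 1 ≤ 3 * Real.exp (-((n : ℝ) / L)) := by
      have h9 : Real.exp (-1) ≤ Real.exp (-((n : ℝ) / L)) := Real.exp_le_exp.2 (by linarith)
      have h10 : Real.exp 1 ≤ 3 := by linarith [Real.exp_one_lt_d9]
      have h11 : Real.exp 1 * Real.exp (-1) = 1 := by
        rw [← Real.exp_add]; norm_num
      have h12 := Real.exp_pos (-1)
      nlinarith
    have h13 : 0 ≤ ‖∑ t ∈ W, θ t * en n t‖ ^ 2 := by positivity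
    nlinarith
  have h7 := quad hL' W θ hθ1 L
  set Q := ∑ p ∈ W ×ˢ W, ‖KV L ((p.1 : ℝ) - p.2)‖ with hQ
  set G := ∑ n ∈ Finset.Icc 1 L, ‖∑ t ∈ W, θ t * en n t‖ with hG
  have hG0 : 0 ≤ G := Finset.sum_nonneg fun n _ => norm_nonneg _
  have hw0 : (0 : ℝ) ≤ W.card := Nat.cast_nonneg _
  have h8 : lam * W.card ≤ B * G := h1.trans h3
  calc lam ^ 2 * (W.card : ℝ) ^ 2 = (lam * W.card) ^ 2 := by ring
    _ ≤ (B * G) ^ 2 := pow_le_pow_left₀ (by positivity) h8 2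
    _ = B ^ 2 * G ^ 2 := by ring
    _ ≤ B ^ 2 * (L * (3 * Q)) := by
        have : G ^ 2 ≤ L * (3 * Q) := by
          refine h5.trans ?_
          have := h6.trans (mul_le_mul_of_nonneg_left h7 (by norm_num))
          exact mul_le_mul_of_nonneg_left this hL'.le
        exact mul_le_mul_of_nonneg_left this (by positivity)
    _ = 3 * B ^ 2 * L * Q := by ring

/-- the constant `∫ rho` -/
def M3 : ℝ := ∫ τ : ℝ, rho τ

theorem M3_nonneg : 0 ≤ M3 := integral_nonneg fun τ => rho_nonneg _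

theorem rho_integrable (u : ℝ) : Integrable (fun τ : ℝ => rho (τ + u)) := by
  have := rho_int (f := fun _ => (1 : ℝ)) continuous_const (A := 1) (fun τ => by
    have h0 := abs_nonneg τ
    rw [abs_one, one_mul]
    exact one_le_pow₀ (by linarith)) u
  simpa using this

theorem int_rho (u : ℝ) : ∫ τ : ℝ, rho (τ + u) = M3 := by
  unfold M3
  exact integral_add_right_eq_self (fun x : ℝ => rho x) u

/-- Young -/
theorem JJ_young (u a : ℝ) (ha : 0 < a) :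
    JJ u ≤ a * M3 + (∫ τ : ℝ, rho (τ + u) * zt τ ^ 4) / a ^ 3 := by
  have hc4 : Continuous (fun τ => zt τ ^ 4) := zt_cont.pow 4
  have i1 := rho_int zt_cont zt_bd u
  have i2 := rho_int hc4 zt4_bd u
  have i3 := (rho_integrable u).const_mul a
  have i4 := i2.div_const (a ^ 3)
  have hpt : ∀ τ : ℝ, rho (τ + u) * zt τ ≤ a * rho (τ + u) + rho (τ + u) * zt τ ^ 4 / a ^ 3 := by
    intro τ
    have h0 := rho_nonneg (τ + u)
    have h1 := zt_nonneg τ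
    have h2 : zt τ ≤ a + zt τ ^ 4 / a ^ 3 := by
      rcases le_or_gt (zt τ) a with h | h
      · have : 0 ≤ zt τ ^ 4 / a ^ 3 := by positivity
        linarith
      · have h3 : zt τ ≤ zt τ ^ 4 / a ^ 3 := by
          rw [le_div_iff₀ (by positivity)]
          calc zt τ * a ^ 3 ≤ zt τ * zt τ ^ 3 := by gcongr
            _ = zt τ ^ 4 := by ring
        linarith
    calc rho (τ + u) * zt τ ≤ rho (τ + u) * (a + zt τ ^ 4 / a ^ 3) := by gcongr
      _ = _ := by ring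
  have h := integral_mono i1 (i3.add i4) hpt
  simp only [Pi.add_apply] at h
  rw [integral_add i3 i4, integral_const_mul, integral_div, int_rho] at h
  exact h

theorem JJ_zero_le : JJ 0 ≤ M3 + (∫ τ : ℝ, rho (τ + 0) * zt τ ^ 4) := by
  have := JJ_young 0 1 one_pos
  simpa using this

/-- **the large values estimate** -/
theorem lv_all : S_LV := by
  intro ε hε
  obtain ⟨K0, hK0, hker⟩ := ker_bound
  obtain ⟨C1, hC1, hrec⟩ := sum_recip hε
  obtain ⟨C2, hC2, hQ⟩ := Q_le hε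
  have hM3 := M3_nonneg
  set J0 := JJ 0 with hJ0
  have hJ00 : 0 ≤ J0 := JJ_nonneg 0
  -- constants
  set A := 6 * K0 * (M3 + 1) with hA
  have hA0 : 6 ≤ A := by rw [hA]; nlinarith
  set C3 := 3 * K0 * (C1 + J0) with hC3
  have hC30 : 0 < C3 := by positivity
  set C4 := 6 * K0 * C2 * A ^ 3 with hC4
  have hC40 : 0 < C4 := by positivity
  refine ⟨1 + 2 * C3 + √C4, by have := Real.sqrt_nonneg C4; linarith, ?_⟩
  intro L T R W c B lam hL hT hR hW hFD hlam hcB hlarge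
  have hB : 0 ≤ B := (norm_nonneg _).trans (hcB 0)
  have hL' : (1 : ℝ) ≤ L := by exact_mod_cast hL
  have hT' : (1 : ℝ) ≤ T := by exact_mod_cast hT
  have hR' : (1 : ℝ) ≤ R := by exact_mod_cast hR
  have hTε : (1 : ℝ) ≤ (T : ℝ) ^ ε := Real.one_le_rpow hT' hε.le
  rcases W.eq_empty_or_nonempty with hWe | hWe
  · subst hWe
    rw [Finset.card_empty, Nat.cast_zero]
    have := Real.sqrt_nonneg C4
    positivity
  have hw1 : (1 : ℝ) ≤ W.card := by exact_mod_cast hWe.card_pos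
  set w : ℝ := (W.card : ℝ) with hw
  -- `B` is positive
  have hBpos : 0 < B := by
    rcases hB.lt_or_eq with h | h
    · exact h
    · exfalso
      obtain ⟨t, ht⟩ := hWe
      have h1 := hlarge t ht
      have h2 : ∑ n ∈ Finset.Icc 1 L, c n * en n t = 0 := by
        refine Finset.sum_eq_zero fun n _ => ?_
        have h3 : ‖c n‖ ≤ 0 := by rw [h]; exact hcB n
        have h4 : c n = 0 := norm_le_zero_iff.1 h3
        rw [h4, zero_mul]
      rw [h2, norm_zero] at h1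
      linarith
  have hLpos : (0 : ℝ) < L := by linarith
  set sL := √(L : ℝ) with hsL
  have hsL0 : 0 < sL := Real.sqrt_pos.2 hLpos
  have hsL2 : sL * sL = L := Real.mul_self_sqrt hLpos.le
  have hsLL : sL ≤ L := by
    have : 1 ≤ sL := by rw [hsL]; exact Real.one_le_sqrt.2 hL'
    nlinarith
  set a := lam ^ 2 / (A * B ^ 2 * L * sL) with ha
  have ha0 : 0 < a := by positivity
  -- the sum of the kernels
  have hsum : ∑ p ∈ W ×ˢ W, ‖KV L ((p.1 : ℝ) - p.2)‖ ≤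
      K0 * (L * (C1 * (T : ℝ) ^ ε * w) + sL * (w * J0 + w ^ 2 * (a * M3) +
        C2 * (R * (T : ℝ) ^ (1 + ε)) / a ^ 3)) := by
    have s1 : ∑ p ∈ W ×ˢ W, ‖KV L ((p.1 : ℝ) - p.2)‖ ≤
        ∑ p ∈ W ×ˢ W, K0 * (L * (1 / (1 + |(p.1 : ℝ) - p.2|)) + sL * JJ ((p.1 : ℝ) - p.2)) := by
      refine Finset.sum_le_sum fun p _ => ?_
      refine (hker L ((p.1 : ℝ) - p.2) hLpos).trans (le_of_eq ?_)
      ring
    have s2 : ∑ p ∈ W ×ˢ W, JJ ((p.1 : ℝ) - p.2) = w * J0 + ∑ p ∈ W.offDiag, JJ ((hp p : ℝ)) := by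
      rw [← Finset.diag_union_offDiag, Finset.sum_union (Finset.disjoint_diag_offDiag _)]
      congr 1
      · rw [Finset.sum_congr rfl (g := fun _ => J0)]
        · rw [Finset.sum_const, Finset.diag_card, nsmul_eq_mul]
        · intro p hp1
          rw [Finset.mem_diag] at hp1
          rw [hp1.2, sub_self]
      · refine Finset.sum_congr rfl fun p _ => ?_
        congr 1
        unfold hp
        push_cast
        ring
    have s3 : ∑ p ∈ W.offDiag, JJ ((hp p : ℝ)) ≤ w ^ 2 * (a * M3) +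
        C2 * (R * (T : ℝ) ^ (1 + ε)) / a ^ 3 := by
      calc ∑ p ∈ W.offDiag, JJ ((hp p : ℝ)) ≤ ∑ p ∈ W.offDiag,
            (a * M3 + (∫ τ : ℝ, rho (τ + (hp p : ℝ)) * zt τ ^ 4) / a ^ 3) :=
            Finset.sum_le_sum fun p _ => JJ_young _ a ha0
        _ = (W.offDiag.card : ℝ) * (a * M3) +
            (∑ p ∈ W.offDiag, ∫ τ : ℝ, rho (τ + (hp p : ℝ)) * zt τ ^ 4) / a ^ 3 := by
            rw [Finset.sum_add_distrib, Finset.sum_const, nsmul_eq_mul, Finset.sum_div]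
        _ ≤ w ^ 2 * (a * M3) + C2 * (R * (T : ℝ) ^ (1 + ε)) / a ^ 3 := by
            have h1 : ((W.offDiag.card : ℕ) : ℝ) ≤ w ^ 2 := by
              have h4 : W.offDiag.card ≤ W.card * W.card := by rw [Finset.offDiag_card]; omega
              have h5 : ((W.offDiag.card : ℕ) : ℝ) ≤ (W.card : ℝ) * W.card := by exact_mod_cast h4
              rw [sq]; exact h5
            have h2 := hQ T R W hT hR hW hFD
            have h3 : 0 ≤ a * M3 := by positivity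
            gcongr
    have s4 := hrec T W hT hW
    refine s1.trans ?_
    rw [← Finset.mul_sum, Finset.sum_add_distrib, ← Finset.mul_sum, ← Finset.mul_sum, s2]
    have s5 : w * J0 + ∑ p ∈ W.offDiag, JJ ((hp p : ℝ)) ≤ w * J0 + w ^ 2 * (a * M3) +
        C2 * (R * (T : ℝ) ^ (1 + ε)) / a ^ 3 := by linarith
    gcongr
  have hHM := HM L hL W c B lam hlam hcB hlarge
  rw [← hw] at hHM
  have h1 : lam ^ 2 * w ^ 2 ≤ 3 * B ^ 2 * L * (K0 * (L * (C1 * (T : ℝ) ^ ε * w) + sL * (w * J0 + w ^ 2 * (a * M3) +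
        C2 * (R * (T : ℝ) ^ (1 + ε)) / a ^ 3))) := by
    refine hHM.trans ?_
    gcongr
  -- the terms
  have t1 : 3 * B ^ 2 * L * (K0 * (L * (C1 * (T : ℝ) ^ ε * w) + sL * (w * J0))) ≤
      C3 * (B ^ 2 * L ^ 2) * (T : ℝ) ^ ε * w := by
    have : sL * (w * J0) ≤ L * (J0 * (T : ℝ) ^ ε * w) := by
      calc sL * (w * J0) ≤ L * (w * J0) := by gcongr
        _ = L * (J0 * 1 * w) := by ring
        _ ≤ L * (J0 * (T : ℝ) ^ ε * w) := by gcongr
    calc 3 * B ^ 2 * L * (K0 * (L * (C1 * (T : ℝ) ^ ε * w) + sL * (w * J0)))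
        ≤ 3 * B ^ 2 * L * (K0 * (L * (C1 * (T : ℝ) ^ ε * w) + L * (J0 * (T : ℝ) ^ ε * w))) := by gcongr
      _ = C3 * (B ^ 2 * L ^ 2) * (T : ℝ) ^ ε * w := by rw [hC3]; ring
  have t2 : 3 * B ^ 2 * L * (K0 * (sL * (w ^ 2 * (a * M3)))) ≤ lam ^ 2 * w ^ 2 / 2 := by
    have e1 : 3 * B ^ 2 * L * (K0 * (sL * (w ^ 2 * (a * M3)))) =
        lam ^ 2 * w ^ 2 * (3 * K0 * M3 / A) := by
      rw [ha]
      have : B ≠ 0 := hBpos.ne'
      have : (L : ℝ) ≠ 0 := hLpos.ne'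
      have : sL ≠ 0 := hsL0.ne'
      have : A ≠ 0 := by linarith
      field_simp
    rw [e1]
    have h2 : 3 * K0 * M3 / A ≤ 1 / 2 := by
      rw [div_le_iff₀ (by linarith), hA]
      nlinarith
    have h3 : 0 ≤ lam ^ 2 * w ^ 2 := by positivity
    nlinarith
  have t3 : 3 * B ^ 2 * L * (K0 * (sL * (C2 * (R * (T : ℝ) ^ (1 + ε)) / a ^ 3))) =
      C4 / 2 * (B ^ 8 * L ^ 6 * (R * (T : ℝ) ^ (1 + ε)) / lam ^ 6) := by
    rw [ha, hC4]
    have e2 : (L : ℝ) ^ 6 = L ^ 4 * (sL * sL) ^ 2 := by rw [hsL2]; ring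
    rw [e2]
    have : B ≠ 0 := hBpos.ne'
    have : (L : ℝ) ≠ 0 := hLpos.ne'
    have : sL ≠ 0 := hsL0.ne'
    have : A ≠ 0 := by linarith
    field_simp
    ring
  have h2 : lam ^ 2 * w ^ 2 ≤ 2 * (C3 * (B ^ 2 * L ^ 2) * (T : ℝ) ^ ε * w) +
      C4 * (B ^ 8 * L ^ 6 * (R * (T : ℝ) ^ (1 + ε)) / lam ^ 6) := by
    have e3 : 3 * B ^ 2 * L * (K0 * (L * (C1 * (T : ℝ) ^ ε * w) + sL * (w * J0 + w ^ 2 * (a * M3) +
        C2 * (R * (T : ℝ) ^ (1 + ε)) / a ^ 3))) =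
        3 * B ^ 2 * L * (K0 * (L * (C1 * (T : ℝ) ^ ε * w) + sL * (w * J0))) +
        3 * B ^ 2 * L * (K0 * (sL * (w ^ 2 * (a * M3)))) +
        3 * B ^ 2 * L * (K0 * (sL * (C2 * (R * (T : ℝ) ^ (1 + ε)) / a ^ 3))) := by ring
    rw [e3, t3] at h1
    linarith
  set X := 2 * C3 * ((T : ℝ) ^ ε * (B ^ 2 * L ^ 2 / lam ^ 2)) with hX
  set Y := √C4 * (T ^ (ε / 2) * (B ^ 4 * L ^ 3 * √(R * T) / lam ^ 4)) with hY
  have hX0 : 0 ≤ X := by positivity
  have hY0 : 0 ≤ Y := by positivity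
  have h3 : w ^ 2 ≤ X * w + Y ^ 2 := by
    have e4 : Y ^ 2 = C4 * (B ^ 8 * L ^ 6 * (R * (T : ℝ) ^ (1 + ε)) / lam ^ 6) / lam ^ 2 := by
      rw [hY]
      have e5 : (√C4) ^ 2 = C4 := Real.sq_sqrt hC40.le
      have e6 : (√((R : ℝ) * T)) ^ 2 = R * T := Real.sq_sqrt (by positivity)
      have e7 : ((T : ℝ) ^ (ε / 2)) ^ 2 = (T : ℝ) ^ ε := by
        rw [← Real.rpow_natCast, ← Real.rpow_mul (by linarith)]
        congr 1
        push_cast
        ring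
      have e8 : (T : ℝ) ^ (1 + ε) = T * (T : ℝ) ^ ε := by
        rw [Real.rpow_add (by linarith), Real.rpow_one]
      rw [mul_pow, mul_pow, div_pow, mul_pow, e5, e6, e7, e8]
      field_simp
    have e9 : X * w = 2 * (C3 * (B ^ 2 * L ^ 2) * (T : ℝ) ^ ε * w) / lam ^ 2 := by
      rw [hX]; field_simp
    rw [e4, e9, ← add_div, le_div_iff₀ (by positivity)]
    linarith
  have h4 : w ≤ X + Y := by
    by_contra hcon
    push Not at hcon
    nlinarith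
  have h5 : (T : ℝ) ^ (ε / 2) ≤ (T : ℝ) ^ ε := Real.rpow_le_rpow_of_exponent_le hT' (by linarith)
  have z1 : 0 ≤ B ^ 2 * L ^ 2 / lam ^ 2 := by positivity
  have z2 : 0 ≤ B ^ 4 * L ^ 3 * √(R * T) / lam ^ 4 := by positivity
  have z3 := Real.sqrt_nonneg C4
  calc w ≤ X + Y := h4
    _ ≤ 2 * C3 * ((T : ℝ) ^ ε * (B ^ 2 * L ^ 2 / lam ^ 2)) +
        √C4 * (T ^ ε * (B ^ 4 * L ^ 3 * √(R * T) / lam ^ 4)) := by
        rw [hX, hY]; gcongr
    _ ≤ (1 + 2 * C3 + √C4) * ((T : ℝ) ^ ε * (B ^ 2 * L ^ 2 / lam ^ 2)) +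
        (1 + 2 * C3 + √C4) * (T ^ ε * (B ^ 4 * L ^ 3 * √(R * T) / lam ^ 4)) := by
        gcongr <;> linarith
    _ = (1 + 2 * C3 + √C4) * (T : ℝ) ^ ε * (B ^ 2 * L ^ 2 / lam ^ 2 + B ^ 4 * L ^ 3 * √(R * T) / lam ^ 4) := by
        ring

end

end Pool.Agent.K6.H1.MQ
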