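import Pool.Agent.K6.H1.MQ.Defs

set_option autoImplicit false

/-!
Piece FIN (helper84): from large values of powers to moments.
-/

namespace Pool.Agent.K6.H1.MQ

open Finset

namespace FinP

/-! ### The number of points -/

lemma fewDiff_mono {W V : Finset ℕ} {R : ℕ} (hV : V ⊆ W) (h : FewDiff W R) : FewDiff V R := by
  intro d hd
  refine (card_le_card ?_).trans (h d hd)
  exact filter_subset_filter _ (product_subset_product hV hV)

lemma card_sq {W : Finset ℕ} {R T : ℕ} (hT : 1 ≤ T) (hW : W ⊆ Icc 1 T) (h : FewDiff W R) :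
    W.card * W.card ≤ W.card + 2 * (R * T) := by
  classical
  have h1 : W ×ˢ W ⊆ W.image (fun t => (t, t)) ∪ ((Icc (-(T : ℤ)) T).erase 0).biUnion
      (fun d => (W ×ˢ W).filter (fun p => (p.1 : ℤ) - p.2 = d)) := by
    rintro ⟨s, t⟩ hst
    rw [mem_product] at hst
    rw [mem_union]
    by_cases he : s = t
    · left
      rw [mem_image]
      exact ⟨s, hst.1, by rw [he]⟩
    · right
      rw [mem_biUnion]
      have h2 := mem_Icc.1 (hW hst.1)
      have h3 := mem_Icc.1 (hW hst.2)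
      simp only at h2 h3
      refine ⟨(s : ℤ) - t, ?_, ?_⟩
      · rw [mem_erase, mem_Icc]
        refine ⟨?_, ?_, ?_⟩ <;> omega
      · rw [mem_filter, mem_product]
        exact ⟨hst, rfl⟩
  have h2 := card_le_card h1
  rw [card_product] at h2
  refine h2.trans ((card_union_le _ _).trans (Nat.add_le_add card_image_le ?_))
  refine card_biUnion_le.trans ?_
  refine (sum_le_card_nsmul _ _ R (fun d hd => h d (ne_of_mem_erase hd))).trans ?_
  rw [card_erase_of_mem (by rw [mem_Icc]; omega), Int.card_Icc, smul_eq_mul]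
  have : ((T : ℤ) + 1 - -(T : ℤ)).toNat - 1 = 2 * T := by omega
  rw [this]
  apply le_of_eq
  ring

lemma card_le_sqrt {W : Finset ℕ} {R T : ℕ} (hT : 1 ≤ T) (hR : 1 ≤ R) (hW : W ⊆ Icc 1 T)
    (h : FewDiff W R) : (W.card : ℝ) ≤ 2 * √(R * T) := by
  have h1 := card_sq hT hW h
  have h2 : (W.card : ℝ) * W.card ≤ W.card + 2 * (R * T) := by exact_mod_cast h1
  have hRT : (1 : ℝ) ≤ R * T := by
    have : 1 ≤ R * T := Nat.one_le_iff_ne_zero.2 (by positivity)
    exact_mod_cast this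
  have h3 : √((R : ℝ) * T) ^ 2 = R * T := Real.sq_sqrt (by linarith)
  have h4 : (1 : ℝ) ≤ √((R : ℝ) * T) := by
    rw [show (1 : ℝ) = √1 by simp]
    exact Real.sqrt_le_sqrt hRT
  have h5 : (0 : ℝ) ≤ W.card := Nat.cast_nonneg _
  by_contra hc
  push Not at hc
  nlinarith

/-! ### The exponents -/

section
variable {n q T R lam : ℝ} {k : ℕ} (hn : 1 ≤ n) (hk : 1 ≤ k) (hq : 0 < q) (hT : n ^ k ≤ T)
  (hT2 : T ≤ n ^ (2 * k)) (hR : 1 ≤ R) (h1 : n ^ (3 * (k : ℝ) / 4) ≤ lam)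
  (h2 : lam ≤ (2 * n) ^ k)

include hk in
lemma kp : (k : ℝ) * (q / k) = q := by
  have : (k : ℝ) ≠ 0 := by exact_mod_cast (by omega : k ≠ 0)
  field_simp

include hn hk hq in
lemma L_rpow (s : ℝ) : (((2 * n) ^ k : ℝ)) ^ (q / k - s) = (2 * n) ^ (q - k * s) := by
  rw [← Real.rpow_natCast, ← Real.rpow_mul (by linarith)]
  congr 1
  rw [mul_sub, kp hk]

include hn hk hq in
lemma lam0_rpow (s : ℝ) : (n ^ (3 * (k : ℝ) / 4)) ^ (q / k - s) =
    n ^ (3 * q / 4 - 3 * k * s / 4) := by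
  rw [← Real.rpow_mul (by linarith)]
  congr 1
  have : (k : ℝ) ≠ 0 := by exact_mod_cast (by omega : k ≠ 0)
  field_simp

include hn hk hq hT hT2 hR h1 h2 in
lemma claimA : lam ^ (q / k) * (((2 * n) ^ k) ^ 2 / lam ^ 2) ≤
    (2 ^ q + 8 ^ k) * (√R * (n ^ q + √T * n ^ (3 * q / 4))) := by
  have hn0 : (0 : ℝ) < n := by linarith
  have hL0 : (0 : ℝ) < (2 * n) ^ k := by positivity
  have hl0 : 0 < lam := lt_of_lt_of_le (Real.rpow_pos_of_pos hn0 _) h1
  have hR1 : (1 : ℝ) ≤ √R := by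
    rw [show (1 : ℝ) = √1 by simp]
    exact Real.sqrt_le_sqrt hR
  have hX : 0 ≤ n ^ q + √T * n ^ (3 * q / 4) := by positivity
  have h2q : (0 : ℝ) < 2 ^ q := by positivity
  have h8 : (0 : ℝ) < 8 ^ k := by positivity
  have e1 : lam ^ (q / k) * (((2 * n) ^ k) ^ 2 / lam ^ 2) =
      lam ^ (q / k - 2) * ((2 * n) ^ k) ^ 2 := by
    rw [Real.rpow_sub hl0, Real.rpow_two]
    field_simp
  rw [e1]
  have key : lam ^ (q / k - 2) * ((2 * n) ^ k) ^ 2 ≤
      (2 ^ q + 8 ^ k) * (n ^ q + √T * n ^ (3 * q / 4)) := by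
    rcases le_or_gt 2 (q / k) with hp | hp
    · have f1 : lam ^ (q / k - 2) ≤ ((2 * n) ^ k) ^ (q / k - 2) :=
        Real.rpow_le_rpow hl0.le h2 (by linarith)
      have f2 : (((2 * n) ^ k : ℝ)) ^ (q / k - 2) * ((2 * n) ^ k) ^ 2 = 2 ^ q * n ^ q := by
        rw [← Real.rpow_two ((2 * n) ^ k), ← Real.rpow_add hL0]
        have := L_rpow hn hk hq 0
        rw [sub_add_cancel]
        rw [sub_zero, mul_zero, sub_zero] at this
        rw [this, Real.mul_rpow (by norm_num) hn0.le]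
      calc lam ^ (q / k - 2) * ((2 * n) ^ k) ^ 2
          ≤ ((2 * n) ^ k) ^ (q / k - 2) * ((2 * n) ^ k) ^ 2 := by gcongr
        _ = 2 ^ q * n ^ q := f2
        _ ≤ (2 ^ q + 8 ^ k) * (n ^ q + √T * n ^ (3 * q / 4)) := by
            apply mul_le_mul _ _ (by positivity) (by positivity)
            · linarith
            · have : 0 ≤ √T * n ^ (3 * q / 4) := by positivity
              linarith
    · have f1 : lam ^ (q / k - 2) ≤ (n ^ (3 * (k : ℝ) / 4)) ^ (q / k - 2) :=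
        Real.rpow_le_rpow_of_nonpos (Real.rpow_pos_of_pos hn0 _) h1 (by linarith)
      have f2 : (n ^ (3 * (k : ℝ) / 4)) ^ (q / k - 2) * ((2 * n) ^ k) ^ 2 =
          4 ^ k * (n ^ ((k : ℝ) / 2) * n ^ (3 * q / 4)) := by
        rw [lam0_rpow hn hk hq 2]
        have g1 : (((2 * n) ^ k) ^ 2 : ℝ) = 4 ^ k * n ^ (2 * (k : ℝ)) := by
          rw [← pow_mul, mul_comm k 2, pow_mul, mul_pow, mul_pow]
          congr 1
          · norm_num
          · rw [← pow_mul, ← Real.rpow_natCast]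
            push_cast
            rfl
        rw [g1, ← Real.rpow_add hn0]
        rw [mul_left_comm, ← Real.rpow_add hn0]
        congr 2
        ring
      have f3 : n ^ ((k : ℝ) / 2) ≤ √T := by
        apply Real.le_sqrt_of_sq_le
        rw [← Real.rpow_natCast, ← Real.rpow_mul hn0.le]
        have : (k : ℝ) / 2 * ((2 : ℕ) : ℝ) = k := by push_cast; ring
        rw [this, Real.rpow_natCast]
        exact hT
      calc lam ^ (q / k - 2) * ((2 * n) ^ k) ^ 2
          ≤ (n ^ (3 * (k : ℝ) / 4)) ^ (q / k - 2) * ((2 * n) ^ k) ^ 2 := by gcongr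
        _ = 4 ^ k * (n ^ ((k : ℝ) / 2) * n ^ (3 * q / 4)) := f2
        _ ≤ 8 ^ k * (√T * n ^ (3 * q / 4)) := by gcongr; norm_num
        _ ≤ (2 ^ q + 8 ^ k) * (n ^ q + √T * n ^ (3 * q / 4)) := by
            apply mul_le_mul _ _ (by positivity) (by positivity)
            · linarith
            · have : 0 ≤ n ^ q := by positivity
              linarith
  refine key.trans ?_
  apply mul_le_mul_of_nonneg_left _ (by positivity)
  exact le_mul_of_one_le_left hX hR1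

include hn hk hq hT hT2 hR h1 h2 in
lemma claimB : lam ^ (q / k) * (((2 * n) ^ k) ^ 3 * √(R * T) / lam ^ 4) ≤
    (2 ^ q + 8 ^ k) * (√R * (n ^ q + √T * n ^ (3 * q / 4))) := by
  have hn0 : (0 : ℝ) < n := by linarith
  have hL0 : (0 : ℝ) < (2 * n) ^ k := by positivity
  have hl0 : 0 < lam := lt_of_lt_of_le (Real.rpow_pos_of_pos hn0 _) h1
  have hR0 : 0 ≤ √R := Real.sqrt_nonneg _
  have hT0 : 0 ≤ √T := Real.sqrt_nonneg _
  have h2q : (0 : ℝ) < 2 ^ q := by positivity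
  have h8 : (0 : ℝ) < 8 ^ k := by positivity
  have e0 : √(R * T) = √R * √T := Real.sqrt_mul (by linarith) _
  have e1 : lam ^ (q / k) * (((2 * n) ^ k) ^ 3 * √(R * T) / lam ^ 4) =
      √R * (lam ^ (q / k - 4) * ((2 * n) ^ k) ^ 3 * √T) := by
    have : lam ^ (q / k - 4) = lam ^ (q / k) / lam ^ 4 := by
      rw [Real.rpow_sub hl0]
      congr 1
      exact_mod_cast Real.rpow_natCast lam 4
    rw [this, e0]
    field_simp
  rw [e1, mul_left_comm (2 ^ q + 8 ^ k : ℝ)]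
  apply mul_le_mul_of_nonneg_left _ hR0
  rcases le_or_gt 4 (q / k) with hp | hp
  · have f1 : lam ^ (q / k - 4) ≤ ((2 * n) ^ k) ^ (q / k - 4) :=
      Real.rpow_le_rpow hl0.le h2 (by linarith)
    have f2 : (((2 * n) ^ k : ℝ)) ^ (q / k - 4) * ((2 * n) ^ k) ^ 3 = (2 * n) ^ (q - k) := by
      have g1 : (((2 * n) ^ k : ℝ)) ^ 3 = ((2 * n) ^ k) ^ (3 : ℝ) := by
        exact_mod_cast (Real.rpow_natCast (((2 * n) ^ k : ℝ)) 3).symm
      rw [g1, ← Real.rpow_add hL0]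
      have := L_rpow hn hk hq 1
      rw [show q / k - 4 + 3 = q / k - 1 by ring, this, mul_one]
    have f3 : √T ≤ n ^ k := by
      rw [Real.sqrt_le_left (by positivity)]
      refine hT2.trans (le_of_eq ?_)
      rw [← pow_mul, mul_comm]
    have f4 : (2 * n) ^ (q - k) * n ^ k ≤ 2 ^ q * n ^ q := by
      rw [Real.mul_rpow (by norm_num) hn0.le]
      have g1 : n ^ (q - k) * n ^ k = n ^ q := by
        rw [← Real.rpow_natCast, ← Real.rpow_add hn0, sub_add_cancel]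
      have g2 : (2 : ℝ) ^ (q - k) ≤ 2 ^ q :=
        Real.rpow_le_rpow_of_exponent_le (by norm_num) (by
          have : (0 : ℝ) ≤ k := Nat.cast_nonneg _
          linarith)
      calc (2 : ℝ) ^ (q - k) * n ^ (q - k) * n ^ k = 2 ^ (q - k) * (n ^ (q - k) * n ^ k) := by ring
        _ = 2 ^ (q - k) * n ^ q := by rw [g1]
        _ ≤ _ := by gcongr
    calc lam ^ (q / k - 4) * ((2 * n) ^ k) ^ 3 * √T
        ≤ ((2 * n) ^ k) ^ (q / k - 4) * ((2 * n) ^ k) ^ 3 * n ^ k := by gcongr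
      _ = (2 * n) ^ (q - k) * n ^ k := by rw [f2]
      _ ≤ 2 ^ q * n ^ q := f4
      _ ≤ (2 ^ q + 8 ^ k) * (n ^ q + √T * n ^ (3 * q / 4)) := by
          apply mul_le_mul _ _ (by positivity) (by positivity)
          · linarith
          · have : 0 ≤ √T * n ^ (3 * q / 4) := by positivity
            linarith
  · have f1 : lam ^ (q / k - 4) ≤ (n ^ (3 * (k : ℝ) / 4)) ^ (q / k - 4) :=
      Real.rpow_le_rpow_of_nonpos (Real.rpow_pos_of_pos hn0 _) h1 (by linarith)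
    have f2 : (n ^ (3 * (k : ℝ) / 4)) ^ (q / k - 4) * ((2 * n) ^ k) ^ 3 =
        8 ^ k * n ^ (3 * q / 4) := by
      rw [lam0_rpow hn hk hq 4]
      have g1 : (((2 * n) ^ k) ^ 3 : ℝ) = 8 ^ k * n ^ (3 * (k : ℝ)) := by
        rw [← pow_mul, mul_comm k 3, pow_mul, mul_pow, mul_pow]
        congr 1
        · norm_num
        · rw [← pow_mul, ← Real.rpow_natCast]
          push_cast
          rfl
      rw [g1, mul_left_comm, ← Real.rpow_add hn0]
      congr 2
      ring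
    calc lam ^ (q / k - 4) * ((2 * n) ^ k) ^ 3 * √T
        ≤ (n ^ (3 * (k : ℝ) / 4)) ^ (q / k - 4) * ((2 * n) ^ k) ^ 3 * √T := by gcongr
      _ = 8 ^ k * (√T * n ^ (3 * q / 4)) := by rw [f2]; ring
      _ ≤ (2 ^ q + 8 ^ k) * (n ^ q + √T * n ^ (3 * q / 4)) := by
          apply mul_le_mul _ _ (by positivity) (by positivity)
          · linarith
          · have : 0 ≤ n ^ q := by positivity
            linarith

end

/-- the trivial bound -/
lemma norm_en (n : ℕ) (t : ℝ) : ‖en n t‖ = 1 := by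
  unfold en
  rw [show Complex.I * (t : ℂ) * ((Real.log (n : ℝ) : ℝ) : ℂ) =
    ((t * Real.log (n : ℝ) : ℝ) : ℂ) * Complex.I by push_cast; ring]
  exact Complex.norm_exp_ofReal_mul_I _

lemma DD_le {N : ℕ} (hN : 1 ≤ N) {b : ℕ → ℂ} (hb : ∀ n ∈ Icc N (2 * N), ‖b n‖ ≤ 1) (t : ℝ) :
    ‖DD N b t‖ ≤ 2 * N := by
  unfold DD
  refine (norm_sum_le _ _).trans ?_
  have h1 : ∑ n ∈ Icc N (2 * N), ‖b n * en n t‖ ≤ (Icc N (2 * N)).card • (1 : ℝ) := by
    apply sum_le_card_nsmul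
    intro n hn
    rw [norm_mul, norm_en, mul_one]
    exact hb n hn
  refine h1.trans ?_
  rw [Nat.card_Icc, nsmul_eq_mul, mul_one]
  have : 2 * N + 1 - N ≤ 2 * N := by omega
  exact_mod_cast this

end FinP

open FinP

theorem main_k (h1 : S_POW) (h2 : S_LV) {q A ε : ℝ} (hq : 0 < q) (hA : 1 ≤ A) (hε : 0 < ε)
    (k : ℕ) (hk : 1 ≤ k) : ∃ K : ℝ, 0 ≤ K ∧ ∀ (N T R : ℕ) (W : Finset ℕ) (b : ℕ → ℂ),
    2 ≤ N → N ^ k ≤ T → T < N ^ (k + 1) → (T : ℝ) ≤ (N : ℝ) ^ A → 1 ≤ R → W ⊆ Icc 1 T →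
    FewDiff W R → (∀ n ∈ Icc N (2 * N), ‖b n‖ ≤ 1) →
    ∑ t ∈ W, ‖DD N b t‖ ^ q ≤
      K * (N : ℝ) ^ ε * (√R * ((N : ℝ) ^ q + √T * (N : ℝ) ^ (3 * q / 4))) := by
  obtain ⟨C1, hC1, hpow⟩ := h1 k (ε / 16) (by positivity)
  obtain ⟨C2, hC2, hlv⟩ := h2 (ε / (4 * A)) (by positivity)
  have hlog2 : 0 < Real.log 2 := Real.log_pos (by norm_num)
  set p : ℝ := q / k with hp
  have hk0 : (0 : ℝ) < k := by exact_mod_cast (by omega : 0 < k)
  have hp0 : 0 < p := div_pos hq hk0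
  set C3 : ℝ := 1 + k * (2 ^ (ε / 4) / (ε / 4)) / Real.log 2 with hC3
  have hC30 : 0 ≤ C3 := by positivity
  set C4 : ℝ := 2 ^ p * C2 * C1 ^ 4 * (2 * (2 ^ q + 8 ^ k)) with hC4
  have hC40 : 0 ≤ C4 := by positivity
  refine ⟨2 + C3 * C4, by positivity, ?_⟩
  intro N T R W b hN hT1 hT2 hTA hR hW hF hb
  set n : ℝ := (N : ℝ) with hn
  have hn2 : (2 : ℝ) ≤ n := by rw [hn]; exact_mod_cast hN
  have hn1 : (1 : ℝ) ≤ n := by linarith
  have hn0 : (0 : ℝ) < n := by linarith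
  set M : ℝ := √R * (n ^ q + √T * n ^ (3 * q / 4)) with hM
  have hM0 : 0 ≤ M := by positivity
  have hT1' : n ^ k ≤ (T : ℝ) := by rw [hn]; exact_mod_cast hT1
  have hT2' : (T : ℝ) ≤ n ^ (2 * k) := by
    have h3 : T ≤ N ^ (2 * k) := hT2.le.trans (Nat.pow_le_pow_right (by omega) (by omega))
    rw [hn]; exact_mod_cast h3
  have hTpos : 1 ≤ T := (Nat.one_le_pow _ _ (by omega)).trans hT1
  have hR1 : (1 : ℝ) ≤ R := by exact_mod_cast hR
  obtain ⟨c, hc, hDk⟩ := hpow N b (by omega) hb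
  set L : ℕ := (2 * N) ^ k with hL
  have hLr : (L : ℝ) = (2 * n) ^ k := by rw [hL, hn]; push_cast; rfl
  have hL1 : 1 ≤ L := Nat.one_le_pow _ _ (by omega)
  set x : ℕ → ℝ := fun t => ‖DD N b t‖ ^ k with hx
  have hx0 : ∀ t, 0 ≤ x t := fun t => by positivity
  have hxq : ∀ t : ℕ, ‖DD N b t‖ ^ q = x t ^ p := by
    intro t
    rw [hx]
    simp only
    rw [← Real.rpow_natCast, ← Real.rpow_mul (norm_nonneg _), hp, kp hk]
  have hxL : ∀ t, x t ≤ L := by
    intro t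
    rw [hLr]
    exact pow_le_pow_left₀ (norm_nonneg _) (DD_le (by omega) hb t) k
  have hxD : ∀ t : ℕ, x t = ‖∑ m ∈ Icc 1 L, c m * en m t‖ := by
    intro t
    rw [hx]
    simp only
    rw [← norm_pow, hDk t]
  set lam0 : ℝ := n ^ (3 * (k : ℝ) / 4) with hlam0
  have hlam00 : 0 < lam0 := Real.rpow_pos_of_pos hn0 _
  have hNε : ∀ s : ℝ, 0 ≤ s → 1 ≤ n ^ s := fun s hs => Real.one_le_rpow hn1 hs
  -- the small values
  have small : ∑ t ∈ W.filter (fun t => x t < lam0), x t ^ p ≤ 2 * M := by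
    have g1 : ∑ t ∈ W.filter (fun t => x t < lam0), x t ^ p ≤
        (W.filter (fun t => x t < lam0)).card • (lam0 ^ p) := by
      apply sum_le_card_nsmul
      intro t ht
      exact Real.rpow_le_rpow (hx0 t) (mem_filter.1 ht).2.le hp0.le
    have g2 : lam0 ^ p = n ^ (3 * q / 4) := by
      have := lam0_rpow hn1 hk hq 0
      rw [sub_zero, mul_zero, zero_div, sub_zero] at this
      exact this
    have g3 := card_le_sqrt hTpos hR hW hF
    have g4 : ((W.filter (fun t => x t < lam0)).card : ℝ) ≤ W.card := by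
      exact_mod_cast card_filter_le _ _
    rw [nsmul_eq_mul, g2] at g1
    have g5 : √((R : ℝ) * T) = √R * √T := Real.sqrt_mul (by linarith) _
    rw [g5] at g3
    refine g1.trans ?_
    calc ((W.filter (fun t => x t < lam0)).card : ℝ) * n ^ (3 * q / 4)
        ≤ (2 * (√R * √T)) * n ^ (3 * q / 4) := by
          apply mul_le_mul_of_nonneg_right (g4.trans g3) (by positivity)
      _ = 2 * (√R * (√T * n ^ (3 * q / 4))) := by ring
      _ ≤ 2 * M := by
          rw [hM]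
          have : 0 ≤ n ^ q := by positivity
          gcongr
          linarith
  -- one block
  set B : ℝ := C1 * n ^ (ε / 16) with hB
  have hB1 : 1 ≤ B := one_le_mul_of_one_le_of_one_le hC1 (hNε _ (by positivity))
  have block : ∀ (V : Finset ℕ) (lam : ℝ), V ⊆ W → lam0 ≤ lam → lam ≤ L →
      (∀ t ∈ V, lam ≤ x t ∧ x t ≤ 2 * lam) → ∑ t ∈ V, x t ^ p ≤ C4 * n ^ (ε / 2) * M := by
    intro V lam hV hl1 hl2 hVx
    have hl0 : 0 < lam := lt_of_lt_of_le hlam00 hl1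
    have g1 : ∑ t ∈ V, x t ^ p ≤ V.card • ((2 * lam) ^ p) := by
      apply sum_le_card_nsmul
      intro t ht
      exact Real.rpow_le_rpow (hx0 t) (hVx t ht).2 hp0.le
    have g2 := hlv L T R V c B lam hL1 hTpos hR (hV.trans hW) (fewDiff_mono hV hF) hl0
      (fun m => hc m) (fun t ht => by rw [← hxD]; exact (hVx t ht).1)
    have g3 : (T : ℝ) ^ (ε / (4 * A)) ≤ n ^ (ε / 4) := by
      calc (T : ℝ) ^ (ε / (4 * A)) ≤ (n ^ A) ^ (ε / (4 * A)) :=
            Real.rpow_le_rpow (Nat.cast_nonneg _) hTA (by positivity)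
        _ = n ^ (ε / 4) := by
            rw [← Real.rpow_mul hn0.le]
            congr 1
            field_simp
    have hT' : (T : ℝ) ≤ n ^ (2 * k) := hT2'
    rw [hLr] at hl2
    have g4 := claimA hn1 hk hq hT1' hT2' hR1 hl1 hl2
    have g5 := claimB hn1 hk hq hT1' hT2' hR1 hl1 hl2
    rw [← hM, ← hp] at g4 g5
    have hB2 : B ^ 2 ≤ B ^ 4 := pow_le_pow_right₀ hB1 (by norm_num)
    have hlp : 0 ≤ lam ^ p := by positivity
    have g6 : lam ^ p * (B ^ 2 * (L : ℝ) ^ 2 / lam ^ 2 + B ^ 4 * (L : ℝ) ^ 3 * √(R * T) / lam ^ 4) ≤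
        B ^ 4 * (2 * ((2 ^ q + 8 ^ k) * M)) := by
      rw [hLr]
      calc lam ^ p * (B ^ 2 * ((2 * n) ^ k) ^ 2 / lam ^ 2 +
            B ^ 4 * ((2 * n) ^ k) ^ 3 * √(R * T) / lam ^ 4)
          = B ^ 2 * (lam ^ p * (((2 * n) ^ k) ^ 2 / lam ^ 2)) +
            B ^ 4 * (lam ^ p * (((2 * n) ^ k) ^ 3 * √(R * T) / lam ^ 4)) := by ring
        _ ≤ B ^ 4 * (lam ^ p * (((2 * n) ^ k) ^ 2 / lam ^ 2)) +
            B ^ 4 * (lam ^ p * (((2 * n) ^ k) ^ 3 * √(R * T) / lam ^ 4)) := by gcongr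
        _ ≤ B ^ 4 * ((2 ^ q + 8 ^ k) * M) + B ^ 4 * ((2 ^ q + 8 ^ k) * M) := by gcongr
        _ = _ := by ring
    have g7 : B ^ 4 = C1 ^ 4 * n ^ (ε / 4) := by
      rw [hB, mul_pow, ← Real.rpow_natCast (n ^ (ε / 16)), ← Real.rpow_mul hn0.le]
      congr 2
      push_cast
      ring
    rw [nsmul_eq_mul] at g1
    have g8 : (2 * lam) ^ p = 2 ^ p * lam ^ p := Real.mul_rpow (by norm_num) hl0.le
    calc ∑ t ∈ V, x t ^ p ≤ (V.card : ℝ) * (2 * lam) ^ p := g1
      _ ≤ (C2 * (T : ℝ) ^ (ε / (4 * A)) * (B ^ 2 * (L : ℝ) ^ 2 / lam ^ 2 +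
            B ^ 4 * (L : ℝ) ^ 3 * √(R * T) / lam ^ 4)) * (2 * lam) ^ p := by gcongr
      _ = C2 * (T : ℝ) ^ (ε / (4 * A)) * 2 ^ p * (lam ^ p * (B ^ 2 * (L : ℝ) ^ 2 / lam ^ 2 +
            B ^ 4 * (L : ℝ) ^ 3 * √(R * T) / lam ^ 4)) := by rw [g8]; ring
      _ ≤ C2 * n ^ (ε / 4) * 2 ^ p * (B ^ 4 * (2 * ((2 ^ q + 8 ^ k) * M))) := by gcongr
      _ = C4 * (n ^ (ε / 4) * n ^ (ε / 4)) * M := by rw [g7, hC4]; ring
      _ = C4 * n ^ (ε / 2) * M := by
          rw [← Real.rpow_add hn0]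
          congr 3
          ring
  -- the large values
  set J : ℕ := Nat.log 2 L with hJ
  have large : ∑ t ∈ W.filter (fun t => ¬ x t < lam0), x t ^ p ≤
      (J + 1 : ℝ) * (C4 * n ^ (ε / 2) * M) := by
    have hex : ∀ t ∈ W.filter (fun t => ¬ x t < lam0), ∃ j : ℕ, 2 ^ j * lam0 ≤ x t ∧
        x t < 2 ^ (j + 1) * lam0 := by
      intro t ht
      have h3 := not_lt.1 (mem_filter.1 ht).2
      obtain ⟨j, hj1, hj2⟩ := exists_nat_pow_near (x := x t / lam0) (y := 2)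
        ((one_le_div hlam00).2 h3) (by norm_num)
      exact ⟨j, (le_div_iff₀ hlam00).1 hj1, (div_lt_iff₀ hlam00).1 hj2⟩
    choose! jj hjj using hex
    have hlam01 : 1 ≤ lam0 := hNε _ (by positivity)
    have hmap : ∀ t ∈ W.filter (fun t => ¬ x t < lam0), jj t ∈ range (J + 1) := by
      intro t ht
      rw [mem_range, Nat.lt_succ_iff, hJ]
      apply Nat.le_log_of_pow_le (by norm_num)
      have h3 := (hjj t ht).1.trans (hxL t)
      have h4 : (2 : ℝ) ^ jj t ≤ L := by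
        refine le_trans ?_ h3
        exact le_mul_of_one_le_right (by positivity) hlam01
      exact_mod_cast h4
    rw [← sum_fiberwise_of_maps_to hmap]
    have h5 : ∀ j ∈ range (J + 1), ∑ t ∈ (W.filter (fun t => ¬ x t < lam0)).filter
        (fun t => jj t = j), x t ^ p ≤ C4 * n ^ (ε / 2) * M := by
      intro j _
      rcases ((W.filter (fun t => ¬ x t < lam0)).filter (fun t => jj t = j)).eq_empty_or_nonempty
        with h6 | ⟨t0, ht0⟩
      · rw [h6, sum_empty]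
        positivity
      · have ht0' := mem_filter.1 ht0
        have h7 := hjj t0 ht0'.1
        rw [ht0'.2] at h7
        apply block _ (2 ^ j * lam0)
        · exact (filter_subset _ _).trans (filter_subset _ _)
        · exact le_mul_of_one_le_left hlam00.le (one_le_pow₀ (by norm_num))
        · exact h7.1.trans (hxL t0)
        · intro t ht
          have ht' := mem_filter.1 ht
          have h8 := hjj t ht'.1
          rw [ht'.2] at h8
          refine ⟨h8.1, h8.2.le.trans (le_of_eq ?_)⟩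
          rw [pow_succ]
          ring
    refine (sum_le_card_nsmul _ _ _ h5).trans (le_of_eq ?_)
    rw [card_range, nsmul_eq_mul]
    push_cast
    ring
  have hJ1 : (J + 1 : ℝ) ≤ C3 * n ^ (ε / 4) := by
    have h3 : (2 : ℝ) ^ J ≤ (2 * n) ^ k := by
      rw [← hLr]
      exact_mod_cast Nat.pow_log_le_self 2 (by omega)
    have h4 : (J : ℝ) * Real.log 2 ≤ k * Real.log (2 * n) := by
      have := Real.log_le_log (by positivity) h3
      rwa [Real.log_pow, Real.log_pow] at this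
    have h5 : Real.log (2 * n) ≤ (2 * n) ^ (ε / 4) / (ε / 4) :=
      Real.log_le_rpow_div (by positivity) (by positivity)
    have h6 : (2 * n) ^ (ε / 4) = 2 ^ (ε / 4) * n ^ (ε / 4) :=
      Real.mul_rpow (by norm_num) hn0.le
    have h7 : (J : ℝ) ≤ k * (2 ^ (ε / 4) / (ε / 4)) / Real.log 2 * n ^ (ε / 4) := by
      rw [div_mul_eq_mul_div, le_div_iff₀ hlog2]
      refine h4.trans ?_
      calc (k : ℝ) * Real.log (2 * n) ≤ k * ((2 * n) ^ (ε / 4) / (ε / 4)) := by gcongr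
        _ = _ := by rw [h6]; ring
    have h8 := hNε (ε / 4) (by positivity)
    calc (J + 1 : ℝ) ≤ k * (2 ^ (ε / 4) / (ε / 4)) / Real.log 2 * n ^ (ε / 4) +
          n ^ (ε / 4) := by linarith
      _ = C3 * n ^ (ε / 4) := by rw [hC3]; ring
  calc ∑ t ∈ W, ‖DD N b t‖ ^ q = ∑ t ∈ W, x t ^ p := sum_congr rfl fun t _ => hxq t
    _ = ∑ t ∈ W.filter (fun t => x t < lam0), x t ^ p +
        ∑ t ∈ W.filter (fun t => ¬ x t < lam0), x t ^ p :=
        (sum_filter_add_sum_filter_not W _ _).symm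
    _ ≤ 2 * M + (J + 1 : ℝ) * (C4 * n ^ (ε / 2) * M) := add_le_add small large
    _ ≤ 2 * M + (C3 * n ^ (ε / 4)) * (C4 * n ^ (ε / 2) * M) := by gcongr
    _ = 2 * M + C3 * C4 * (n ^ (ε / 4) * n ^ (ε / 2)) * M := by ring
    _ ≤ 2 * (n ^ ε * M) + C3 * C4 * n ^ ε * M := by
        have h3 : n ^ (ε / 4) * n ^ (ε / 2) ≤ n ^ ε := by
          rw [← Real.rpow_add hn0]
          exact Real.rpow_le_rpow_of_exponent_le hn1 (by linarith)
        have h4 : M ≤ n ^ ε * M := le_mul_of_one_le_left hM0 (hNε ε hε.le)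
        gcongr
    _ = (2 + C3 * C4) * n ^ ε * M := by ring

theorem fin_all (h1 : S_POW) (h2 : S_LV) : S_FIN := by
  intro q A ε hq hA hε
  choose K hK0 hK using fun (k : ℕ) (hk : 1 ≤ k) => main_k h1 h2 hq hA hε k hk
  set K' : ℕ → ℝ := fun k => if h : 1 ≤ k then K k h else 0 with hK'
  have hK'0 : ∀ k, 0 ≤ K' k := fun k => by
    simp only [hK']
    split_ifs with h
    · exact hK0 k h
    · exact le_rfl
  have hS0 : 0 ≤ ∑ k ∈ range (⌊A⌋₊ + 1), K' k := sum_nonneg fun k _ => hK'0 k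
  refine ⟨2 ^ q + ∑ k ∈ range (⌊A⌋₊ + 1), K' k, ?_⟩
  intro N T R W b hN hNT hTA hR hW hF hb
  have h2q : (0 : ℝ) < 2 ^ q := by positivity
  have hR1 : (1 : ℝ) ≤ √R := by
    rw [show (1 : ℝ) = √1 by simp]
    exact Real.sqrt_le_sqrt (by exact_mod_cast hR)
  rcases Nat.lt_or_ge 1 N with hN2 | hN1
  · -- `N ≥ 2`
    set k := Nat.log N T with hk
    have hk1 : 1 ≤ k := Nat.log_pos hN2 hNT
    have e1 : N ^ k ≤ T := Nat.pow_log_le_self N (by omega)
    have e2 : T < N ^ (k + 1) := Nat.lt_pow_succ_log_self hN2 T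
    have e3 : (k : ℝ) ≤ A := by
      have h3 : (N : ℝ) ^ (k : ℝ) ≤ (N : ℝ) ^ A := by
        rw [Real.rpow_natCast]
        refine le_trans ?_ hTA
        exact_mod_cast e1
      have hN' : (1 : ℝ) < N := by exact_mod_cast hN2
      exact (Real.rpow_le_rpow_left_iff hN').1 h3
    have e4 : k ∈ range (⌊A⌋₊ + 1) := by
      rw [mem_range, Nat.lt_succ_iff]
      exact Nat.le_floor e3
    have h3 := hK k hk1 N T R W b hN2 e1 e2 hTA hR hW hF hb
    have h4 : K k hk1 = K' k := by simp only [hK']; rw [dif_pos hk1]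
    have h5 : K' k ≤ 2 ^ q + ∑ k ∈ range (⌊A⌋₊ + 1), K' k := by
      have := single_le_sum (fun k _ => hK'0 k) e4
      linarith
    refine h3.trans ?_
    rw [h4, ← mul_assoc]
    have h6 : 0 ≤ (N : ℝ) ^ q + √T * (N : ℝ) ^ (3 * q / 4) := by positivity
    gcongr
  · -- `N = 1`
    have hN1' : N = 1 := by omega
    subst hN1'
    have hT1 : (T : ℝ) ≤ 1 := by simpa using hTA
    have hT1' : T ≤ 1 := by exact_mod_cast hT1
    have hT : T = 1 := by omega
    subst hT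
    have h3 : ∑ t ∈ W, ‖DD 1 b t‖ ^ q ≤ W.card • ((2 : ℝ) ^ q) := by
      apply sum_le_card_nsmul
      intro t _
      apply Real.rpow_le_rpow (norm_nonneg _) _ hq.le
      have := DD_le le_rfl hb t
      simpa using this
    have h4 : W.card ≤ 1 := by
      have := card_le_card hW
      simpa using this
    have h5 : (W.card : ℝ) ≤ 1 := by exact_mod_cast h4
    rw [nsmul_eq_mul] at h3
    have h6 : ((1 : ℕ) : ℝ) ^ ε = 1 := by simp
    have h7 : ((1 : ℕ) : ℝ) ^ q + √((1 : ℕ) : ℝ) * ((1 : ℕ) : ℝ) ^ (3 * q / 4) = 2 := by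
      simp; norm_num
    rw [h6, h7]
    calc ∑ t ∈ W, ‖DD 1 b t‖ ^ q ≤ (W.card : ℝ) * 2 ^ q := h3
      _ ≤ 1 * 2 ^ q := by gcongr
      _ ≤ (2 ^ q + ∑ k ∈ range (⌊A⌋₊ + 1), K' k) * 1 * √R * 2 := by nlinarith

end Pool.Agent.K6.H1.MQ
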