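import Pool.Agent.K6.H1.MQ.Fin

set_option autoImplicit false

/-!
The sharp form of FIN: no loss in the term `N^q` (adapted from the piece FIN of helper84).
-/

namespace Pool.Agent.K6.H1.MQ

open Finset FinP

theorem main_k2 (h1 : S_POW) (h2 : S_LV) {q A ε : ℝ} (hq : 0 < q) (hA : 1 ≤ A) (hε : 0 < ε)
    (k : ℕ) (hk : 1 ≤ k) : ∃ K : ℝ, 0 ≤ K ∧ ∀ (N T R : ℕ) (W : Finset ℕ) (b : ℕ → ℂ),
    2 ≤ N → N ^ k ≤ R * T → R * T < N ^ (k + 1) → 1 ≤ T → (T : ℝ) ≤ (N : ℝ) ^ A → 1 ≤ R → W ⊆ Icc 1 T →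
    FewDiff W R → (∀ n ∈ Icc N (2 * N), ‖b n‖ ≤ 1) →
    ∑ t ∈ W, ‖DD N b t‖ ^ q ≤
      K * (N : ℝ) ^ ε * ((N : ℝ) ^ q + √((R : ℝ) * T) * (N : ℝ) ^ (3 * q / 4)) := by
  obtain ⟨C1, hC1, hpow⟩ := h1 k (ε / 16) (by positivity)
  obtain ⟨C2, hC2, hlv⟩ := h2 (ε / (4 * A)) (by positivity)
  have hlog2 : 0 < Real.log 2 := Real.log_pos (by norm_num)
  set p : ℝ := q / k with hp
  have hk0 : (0 : ℝ) < k := by exact_mod_cast (by omega : 0 < k)
  have hp0 : 0 < p := div_pos hq hk0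
  set C3 : ℝ := 1 + k * (2 ^ (ε / 4) / (ε / 4)) / Real.log 2 with hC3
  have hC30 : 0 ≤ C3 := by positivity
  set C4 : ℝ := 2 ^ p * C2 * C1 ^ 4 * (2 * (2 ^ q + 8 ^ k)) with hC4
  have hC40 : 0 ≤ C4 := by positivity
  refine ⟨2 + C3 * C4, by positivity, ?_⟩
  intro N T R W b hN hT1 hT2 hTpos hTA hR hW hF hb
  set n : ℝ := (N : ℝ) with hn
  have hn2 : (2 : ℝ) ≤ n := by rw [hn]; exact_mod_cast hN
  have hn1 : (1 : ℝ) ≤ n := by linarith
  have hn0 : (0 : ℝ) < n := by linarith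
  set U : ℝ := (R : ℝ) * T with hU
  set M : ℝ := n ^ q + √U * n ^ (3 * q / 4) with hM
  have hM0 : 0 ≤ M := by positivity
  have hT1' : n ^ k ≤ U := by rw [hn, hU]; exact_mod_cast hT1
  have hT2' : U ≤ n ^ (2 * k) := by
    have h3 : R * T ≤ N ^ (2 * k) := hT2.le.trans (Nat.pow_le_pow_right (by omega) (by omega))
    rw [hn, hU]; exact_mod_cast h3
  have hR1 : (1 : ℝ) ≤ R := by exact_mod_cast hR
  obtain ⟨c, hc, hDk⟩ := hpow N b (by omega) hb
  set L : ℕ := (2 * N) ^ k with hL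
  have hLr : (L : ℝ) = (2 * n) ^ k := by rw [hL, hn]; push_cast; rfl
  have hL1 : 1 ≤ L := Nat.one_le_pow _ _ (by omega)
  set x : ℕ → ℝ := fun t => ‖DD N b t‖ ^ k with hx
  have hx0 : ∀ t, 0 ≤ x t := fun t => by positivity
  have hxq : ∀ t : ℕ, ‖DD N b t‖ ^ q = x t ^ p := by
    intro t
    rw [hx]
    simp only
    rw [← Real.rpow_natCast, ← Real.rpow_mul (norm_nonneg _), hp, kp hk]
  have hxL : ∀ t, x t ≤ L := by
    intro t
    rw [hLr]
    exact pow_le_pow_left₀ (norm_nonneg _) (DD_le (by omega) hb t) k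
  have hxD : ∀ t : ℕ, x t = ‖∑ m ∈ Icc 1 L, c m * en m t‖ := by
    intro t
    rw [hx]
    simp only
    rw [← norm_pow, hDk t]
  set lam0 : ℝ := n ^ (3 * (k : ℝ) / 4) with hlam0
  have hlam00 : 0 < lam0 := Real.rpow_pos_of_pos hn0 _
  have hNε : ∀ s : ℝ, 0 ≤ s → 1 ≤ n ^ s := fun s hs => Real.one_le_rpow hn1 hs
  -- the small values
  have small : ∑ t ∈ W.filter (fun t => x t < lam0), x t ^ p ≤ 2 * M := by
    have g1 : ∑ t ∈ W.filter (fun t => x t < lam0), x t ^ p ≤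
        (W.filter (fun t => x t < lam0)).card • (lam0 ^ p) := by
      apply sum_le_card_nsmul
      intro t ht
      exact Real.rpow_le_rpow (hx0 t) (mem_filter.1 ht).2.le hp0.le
    have g2 : lam0 ^ p = n ^ (3 * q / 4) := by
      have := lam0_rpow hn1 hk hq 0
      rw [sub_zero, mul_zero, zero_div, sub_zero] at this
      exact this
    have g3 := card_le_sqrt hTpos hR hW hF
    have g4 : ((W.filter (fun t => x t < lam0)).card : ℝ) ≤ W.card := by
      exact_mod_cast card_filter_le _ _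
    rw [nsmul_eq_mul, g2] at g1
    rw [← hU] at g3
    refine g1.trans ?_
    calc ((W.filter (fun t => x t < lam0)).card : ℝ) * n ^ (3 * q / 4)
        ≤ (2 * √U) * n ^ (3 * q / 4) := by
          apply mul_le_mul_of_nonneg_right (g4.trans g3) (by positivity)
      _ = 2 * (√U * n ^ (3 * q / 4)) := by ring
      _ ≤ 2 * M := by
          rw [hM]
          have : 0 ≤ n ^ q := by positivity
          linarith
  -- one block
  set B : ℝ := C1 * n ^ (ε / 16) with hB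
  have hB1 : 1 ≤ B := one_le_mul_of_one_le_of_one_le hC1 (hNε _ (by positivity))
  have block : ∀ (V : Finset ℕ) (lam : ℝ), V ⊆ W → lam0 ≤ lam → lam ≤ L →
      (∀ t ∈ V, lam ≤ x t ∧ x t ≤ 2 * lam) → ∑ t ∈ V, x t ^ p ≤ C4 * n ^ (ε / 2) * M := by
    intro V lam hV hl1 hl2 hVx
    have hl0 : 0 < lam := lt_of_lt_of_le hlam00 hl1
    have g1 : ∑ t ∈ V, x t ^ p ≤ V.card • ((2 * lam) ^ p) := by
      apply sum_le_card_nsmul
      intro t ht
      exact Real.rpow_le_rpow (hx0 t) (hVx t ht).2 hp0.le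
    have g2 := hlv L T R V c B lam hL1 hTpos hR (hV.trans hW) (fewDiff_mono hV hF) hl0
      (fun m => hc m) (fun t ht => by rw [← hxD]; exact (hVx t ht).1)
    have g3 : (T : ℝ) ^ (ε / (4 * A)) ≤ n ^ (ε / 4) := by
      calc (T : ℝ) ^ (ε / (4 * A)) ≤ (n ^ A) ^ (ε / (4 * A)) :=
            Real.rpow_le_rpow (Nat.cast_nonneg _) hTA (by positivity)
        _ = n ^ (ε / 4) := by
            rw [← Real.rpow_mul hn0.le]
            congr 1
            field_simp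
    rw [hLr] at hl2
    have g4 := claimA hn1 hk hq hT1' hT2' le_rfl hl1 hl2
    have g5 := claimB hn1 hk hq hT1' hT2' le_rfl hl1 hl2
    rw [Real.sqrt_one, one_mul, ← hM, ← hp] at g4
    rw [Real.sqrt_one, one_mul, one_mul, ← hM, ← hp] at g5
    rw [← hU] at g2
    have hB2 : B ^ 2 ≤ B ^ 4 := pow_le_pow_right₀ hB1 (by norm_num)
    have hlp : 0 ≤ lam ^ p := by positivity
    have g6 : lam ^ p * (B ^ 2 * (L : ℝ) ^ 2 / lam ^ 2 + B ^ 4 * (L : ℝ) ^ 3 * √U / lam ^ 4) ≤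
        B ^ 4 * (2 * ((2 ^ q + 8 ^ k) * M)) := by
      rw [hLr]
      calc lam ^ p * (B ^ 2 * ((2 * n) ^ k) ^ 2 / lam ^ 2 +
            B ^ 4 * ((2 * n) ^ k) ^ 3 * √U / lam ^ 4)
          = B ^ 2 * (lam ^ p * (((2 * n) ^ k) ^ 2 / lam ^ 2)) +
            B ^ 4 * (lam ^ p * (((2 * n) ^ k) ^ 3 * √U / lam ^ 4)) := by ring
        _ ≤ B ^ 4 * (lam ^ p * (((2 * n) ^ k) ^ 2 / lam ^ 2)) +
            B ^ 4 * (lam ^ p * (((2 * n) ^ k) ^ 3 * √U / lam ^ 4)) := by gcongr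
        _ ≤ B ^ 4 * ((2 ^ q + 8 ^ k) * M) + B ^ 4 * ((2 ^ q + 8 ^ k) * M) := by gcongr
        _ = _ := by ring
    have g7 : B ^ 4 = C1 ^ 4 * n ^ (ε / 4) := by
      rw [hB, mul_pow, ← Real.rpow_natCast (n ^ (ε / 16)), ← Real.rpow_mul hn0.le]
      congr 2
      push_cast
      ring
    rw [nsmul_eq_mul] at g1
    have g8 : (2 * lam) ^ p = 2 ^ p * lam ^ p := Real.mul_rpow (by norm_num) hl0.le
    calc ∑ t ∈ V, x t ^ p ≤ (V.card : ℝ) * (2 * lam) ^ p := g1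
      _ ≤ (C2 * (T : ℝ) ^ (ε / (4 * A)) * (B ^ 2 * (L : ℝ) ^ 2 / lam ^ 2 +
            B ^ 4 * (L : ℝ) ^ 3 * √U / lam ^ 4)) * (2 * lam) ^ p := by gcongr
      _ = C2 * (T : ℝ) ^ (ε / (4 * A)) * 2 ^ p * (lam ^ p * (B ^ 2 * (L : ℝ) ^ 2 / lam ^ 2 +
            B ^ 4 * (L : ℝ) ^ 3 * √U / lam ^ 4)) := by rw [g8]; ring
      _ ≤ C2 * n ^ (ε / 4) * 2 ^ p * (B ^ 4 * (2 * ((2 ^ q + 8 ^ k) * M))) := by gcongr
      _ = C4 * (n ^ (ε / 4) * n ^ (ε / 4)) * M := by rw [g7, hC4]; ring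
      _ = C4 * n ^ (ε / 2) * M := by
          rw [← Real.rpow_add hn0]
          congr 3
          ring
  -- the large values
  set J : ℕ := Nat.log 2 L with hJ
  have large : ∑ t ∈ W.filter (fun t => ¬ x t < lam0), x t ^ p ≤
      (J + 1 : ℝ) * (C4 * n ^ (ε / 2) * M) := by
    have hex : ∀ t ∈ W.filter (fun t => ¬ x t < lam0), ∃ j : ℕ, 2 ^ j * lam0 ≤ x t ∧
        x t < 2 ^ (j + 1) * lam0 := by
      intro t ht
      have h3 := not_lt.1 (mem_filter.1 ht).2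
      obtain ⟨j, hj1, hj2⟩ := exists_nat_pow_near (x := x t / lam0) (y := 2)
        ((one_le_div hlam00).2 h3) (by norm_num)
      exact ⟨j, (le_div_iff₀ hlam00).1 hj1, (div_lt_iff₀ hlam00).1 hj2⟩
    choose! jj hjj using hex
    have hlam01 : 1 ≤ lam0 := hNε _ (by positivity)
    have hmap : ∀ t ∈ W.filter (fun t => ¬ x t < lam0), jj t ∈ range (J + 1) := by
      intro t ht
      rw [mem_range, Nat.lt_succ_iff, hJ]
      apply Nat.le_log_of_pow_le (by norm_num)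
      have h3 := (hjj t ht).1.trans (hxL t)
      have h4 : (2 : ℝ) ^ jj t ≤ L := by
        refine le_trans ?_ h3
        exact le_mul_of_one_le_right (by positivity) hlam01
      exact_mod_cast h4
    rw [← sum_fiberwise_of_maps_to hmap]
    have h5 : ∀ j ∈ range (J + 1), ∑ t ∈ (W.filter (fun t => ¬ x t < lam0)).filter
        (fun t => jj t = j), x t ^ p ≤ C4 * n ^ (ε / 2) * M := by
      intro j _
      rcases ((W.filter (fun t => ¬ x t < lam0)).filter (fun t => jj t = j)).eq_empty_or_nonempty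
        with h6 | ⟨t0, ht0⟩
      · rw [h6, sum_empty]
        positivity
      · have ht0' := mem_filter.1 ht0
        have h7 := hjj t0 ht0'.1
        rw [ht0'.2] at h7
        apply block _ (2 ^ j * lam0)
        · exact (filter_subset _ _).trans (filter_subset _ _)
        · exact le_mul_of_one_le_left hlam00.le (one_le_pow₀ (by norm_num))
        · exact h7.1.trans (hxL t0)
        · intro t ht
          have ht' := mem_filter.1 ht
          have h8 := hjj t ht'.1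
          rw [ht'.2] at h8
          refine ⟨h8.1, h8.2.le.trans (le_of_eq ?_)⟩
          rw [pow_succ]
          ring
    refine (sum_le_card_nsmul _ _ _ h5).trans (le_of_eq ?_)
    rw [card_range, nsmul_eq_mul]
    push_cast
    ring
  have hJ1 : (J + 1 : ℝ) ≤ C3 * n ^ (ε / 4) := by
    have h3 : (2 : ℝ) ^ J ≤ (2 * n) ^ k := by
      rw [← hLr]
      exact_mod_cast Nat.pow_log_le_self 2 (by omega)
    have h4 : (J : ℝ) * Real.log 2 ≤ k * Real.log (2 * n) := by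
      have := Real.log_le_log (by positivity) h3
      rwa [Real.log_pow, Real.log_pow] at this
    have h5 : Real.log (2 * n) ≤ (2 * n) ^ (ε / 4) / (ε / 4) :=
      Real.log_le_rpow_div (by positivity) (by positivity)
    have h6 : (2 * n) ^ (ε / 4) = 2 ^ (ε / 4) * n ^ (ε / 4) :=
      Real.mul_rpow (by norm_num) hn0.le
    have h7 : (J : ℝ) ≤ k * (2 ^ (ε / 4) / (ε / 4)) / Real.log 2 * n ^ (ε / 4) := by
      rw [div_mul_eq_mul_div, le_div_iff₀ hlog2]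
      refine h4.trans ?_
      calc (k : ℝ) * Real.log (2 * n) ≤ k * ((2 * n) ^ (ε / 4) / (ε / 4)) := by gcongr
        _ = _ := by rw [h6]; ring
    have h8 := hNε (ε / 4) (by positivity)
    calc (J + 1 : ℝ) ≤ k * (2 ^ (ε / 4) / (ε / 4)) / Real.log 2 * n ^ (ε / 4) +
          n ^ (ε / 4) := by linarith
      _ = C3 * n ^ (ε / 4) := by rw [hC3]; ring
  calc ∑ t ∈ W, ‖DD N b t‖ ^ q = ∑ t ∈ W, x t ^ p := sum_congr rfl fun t _ => hxq t
    _ = ∑ t ∈ W.filter (fun t => x t < lam0), x t ^ p +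
        ∑ t ∈ W.filter (fun t => ¬ x t < lam0), x t ^ p :=
        (sum_filter_add_sum_filter_not W _ _).symm
    _ ≤ 2 * M + (J + 1 : ℝ) * (C4 * n ^ (ε / 2) * M) := add_le_add small large
    _ ≤ 2 * M + (C3 * n ^ (ε / 4)) * (C4 * n ^ (ε / 2) * M) := by gcongr
    _ = 2 * M + C3 * C4 * (n ^ (ε / 4) * n ^ (ε / 2)) * M := by ring
    _ ≤ 2 * (n ^ ε * M) + C3 * C4 * n ^ ε * M := by
        have h3 : n ^ (ε / 4) * n ^ (ε / 2) ≤ n ^ ε := by
          rw [← Real.rpow_add hn0]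
          exact Real.rpow_le_rpow_of_exponent_le hn1 (by linarith)
        have h4 : M ≤ n ^ ε * M := le_mul_of_one_le_left hM0 (hNε ε hε.le)
        gcongr
    _ = (2 + C3 * C4) * n ^ ε * M := by ring

lemma fewDiff_card (W : Finset ℕ) : FewDiff W W.card := by
  intro h _
  apply card_le_card_of_injOn (fun p => p.1)
  · intro p hp
    have := mem_filter.1 (mem_coe.1 hp)
    exact (mem_product.1 this.1).1
  · intro p hp p' hp' he
    have h1 := (mem_filter.1 (mem_coe.1 hp)).2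
    have h2 := (mem_filter.1 (mem_coe.1 hp')).2
    simp only at he
    apply Prod.ext he
    rw [he] at h1
    omega

/-- the sharp form -/
theorem fin_two (h1 : S_POW) (h2 : S_LV) : ∀ q A ε : ℝ, 0 < q → 1 ≤ A → 0 < ε → ∃ K : ℝ, 0 ≤ K ∧
    ∀ (N T R : ℕ) (W : Finset ℕ) (b : ℕ → ℂ),
    1 ≤ N → N ≤ T → (T : ℝ) ≤ (N : ℝ) ^ A → 1 ≤ R → R ≤ T → W ⊆ Icc 1 T → FewDiff W R →
    (∀ n ∈ Icc N (2 * N), ‖b n‖ ≤ 1) →
    ∑ t ∈ W, ‖DD N b t‖ ^ q ≤
      K * (N : ℝ) ^ ε * ((N : ℝ) ^ q + √((R : ℝ) * T) * (N : ℝ) ^ (3 * q / 4)) := by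
  intro q A ε hq hA hε
  choose K hK0 hK using fun (k : ℕ) (hk : 1 ≤ k) => main_k2 h1 h2 hq hA hε k hk
  set K' : ℕ → ℝ := fun k => if h : 1 ≤ k then K k h else 0 with hK'
  have hK'0 : ∀ k, 0 ≤ K' k := fun k => by
    simp only [hK']
    split_ifs with h
    · exact hK0 k h
    · exact le_rfl
  have hS0 : 0 ≤ ∑ k ∈ range (⌊2 * A⌋₊ + 1), K' k := sum_nonneg fun k _ => hK'0 k
  refine ⟨2 ^ q + ∑ k ∈ range (⌊2 * A⌋₊ + 1), K' k, by positivity, ?_⟩
  intro N T R W b hN hNT hTA hR hRT hW hF hb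
  have h2q : (0 : ℝ) < 2 ^ q := by positivity
  have hR1 : (1 : ℝ) ≤ √R := by
    rw [show (1 : ℝ) = √1 by simp]
    exact Real.sqrt_le_sqrt (by exact_mod_cast hR)
  rcases Nat.lt_or_ge 1 N with hN2 | hN1
  · -- `N ≥ 2`
    have hTpos : 1 ≤ T := hN.trans hNT
    have hRT1 : T ≤ R * T := Nat.le_mul_of_pos_left T (by omega)
    set k := Nat.log N (R * T) with hk
    have hk1 : 1 ≤ k := Nat.log_pos hN2 (hNT.trans hRT1)
    have e1 : N ^ k ≤ R * T := Nat.pow_log_le_self N (by omega)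
    have e2 : R * T < N ^ (k + 1) := Nat.lt_pow_succ_log_self hN2 _
    have e3 : (k : ℝ) ≤ 2 * A := by
      have h3 : (N : ℝ) ^ (k : ℝ) ≤ (N : ℝ) ^ (2 * A) := by
        rw [Real.rpow_natCast]
        have e5 : R * T ≤ T * T := Nat.mul_le_mul_right T hRT
        have e6 : (N : ℝ) ^ k ≤ (T : ℝ) * T := by exact_mod_cast e1.trans e5
        refine e6.trans ?_
        have e7 : (N : ℝ) ^ (2 * A) = (N : ℝ) ^ A * (N : ℝ) ^ A := by
          rw [← Real.rpow_add (by exact_mod_cast hN)]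
          congr 1
          ring
        rw [e7]
        exact mul_le_mul hTA hTA (Nat.cast_nonneg _) (by positivity)
      have hN' : (1 : ℝ) < N := by exact_mod_cast hN2
      exact (Real.rpow_le_rpow_left_iff hN').1 h3
    have e4 : k ∈ range (⌊2 * A⌋₊ + 1) := by
      rw [mem_range, Nat.lt_succ_iff]
      exact Nat.le_floor e3
    have h3 := hK k hk1 N T R W b hN2 e1 e2 hTpos hTA hR hW hF hb
    have h4 : K k hk1 = K' k := by simp only [hK']; rw [dif_pos hk1]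
    have h5 : K' k ≤ 2 ^ q + ∑ k ∈ range (⌊2 * A⌋₊ + 1), K' k := by
      have := single_le_sum (fun k _ => hK'0 k) e4
      linarith
    refine h3.trans ?_
    rw [h4]
    have h6 : 0 ≤ (N : ℝ) ^ q + √((R : ℝ) * T) * (N : ℝ) ^ (3 * q / 4) := by positivity
    gcongr
  · -- `N = 1`
    have hN1' : N = 1 := by omega
    subst hN1'
    have hT1 : (T : ℝ) ≤ 1 := by simpa using hTA
    have hT1' : T ≤ 1 := by exact_mod_cast hT1
    have hT : T = 1 := by omega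
    subst hT
    have h3 : ∑ t ∈ W, ‖DD 1 b t‖ ^ q ≤ W.card • ((2 : ℝ) ^ q) := by
      apply sum_le_card_nsmul
      intro t _
      apply Real.rpow_le_rpow (norm_nonneg _) _ hq.le
      have := DD_le le_rfl hb t
      simpa using this
    have h4 : W.card ≤ 1 := by
      have := card_le_card hW
      simpa using this
    have h5 : (W.card : ℝ) ≤ 1 := by exact_mod_cast h4
    rw [nsmul_eq_mul] at h3
    have h6 : ((1 : ℕ) : ℝ) ^ ε = 1 := by simp
    have h7 : 1 ≤ ((1 : ℕ) : ℝ) ^ q + √((R : ℝ) * (1 : ℕ)) * ((1 : ℕ) : ℝ) ^ (3 * q / 4) := by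
      have : 0 ≤ √((R : ℝ) * (1 : ℕ)) := Real.sqrt_nonneg _
      simp
    rw [h6]
    calc ∑ t ∈ W, ‖DD 1 b t‖ ^ q ≤ (W.card : ℝ) * 2 ^ q := h3
      _ ≤ 1 * 2 ^ q := by gcongr
      _ ≤ (2 ^ q + ∑ k ∈ range (⌊2 * A⌋₊ + 1), K' k) * 1 *
          (((1 : ℕ) : ℝ) ^ q + √((R : ℝ) * (1 : ℕ)) * ((1 : ℕ) : ℝ) ^ (3 * q / 4)) := by nlinarith

end Pool.Agent.K6.H1.MQ
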