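import Pool.Agent.K6.H1.MQ.Ker

set_option autoImplicit false

/-!
The fourth moment of zeta against the differences of a set with few repeated differences.
-/

namespace Pool.Agent.K6.H1.MQ

open MeasureTheory Set Filter Topology Finset

noncomputable section

/-- `Σ (1+|m|)^{-s}` over the integers -/
theorem summ_int {s : ℝ} (hs : 1 < s) : Summable (fun m : ℤ => (1 + |(m : ℝ)|) ^ (-s)) := by
  have h1 := Real.summable_abs_int_rpow hs
  have h2 : Summable (fun m : ℤ => if m = 0 then (1 : ℝ) else 0) := (hasSum_ite_eq 0 1).summable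
  refine Summable.of_nonneg_of_le (fun m => by positivity) (fun m => ?_) (h2.add h1)
  by_cases hm : m = 0
  · subst hm
    simp
    rw [Real.zero_rpow (by linarith)]
  · rw [if_neg hm, zero_add]
    have : (0 : ℝ) < |(m : ℝ)| := by
      rw [abs_pos]; exact_mod_cast hm
    exact Real.rpow_le_rpow_of_nonpos this (by linarith) (by linarith)

/-- the constant of the lattice sum -/
def M1 : ℝ := 4 * ∑' m : ℤ, (1 + |(m : ℝ)|) ^ (-(2 : ℝ))

theorem M1_nonneg : 0 ≤ M1 := by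
  unfold M1
  have : 0 ≤ ∑' m : ℤ, (1 + |(m : ℝ)|) ^ (-(2 : ℝ)) := tsum_nonneg fun m => by positivity
  positivity

theorem rho_floor (x : ℝ) : rho x ≤ 4 * (1 + |((⌊x⌋ : ℤ) : ℝ)|) ^ (-(2 : ℝ)) := by
  have h1 : |((⌊x⌋ : ℤ) : ℝ)| ≤ |x| + 1 := by
    have a := Int.floor_le x
    have b := Int.lt_floor_add_one x
    rw [abs_le]
    constructor
    · linarith [neg_abs_le x]
    · linarith [le_abs_self x]
  have h2 := abs_nonneg x
  have h3 := abs_nonneg ((⌊x⌋ : ℤ) : ℝ)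
  rw [Real.rpow_neg (by positivity), Real.rpow_two]
  unfold rho
  rw [← div_eq_mul_inv, inv_eq_one_div, div_le_div_iff₀ (by positivity) (by positivity), one_mul]
  have h4 : (1 + |x|) ^ 2 ≤ (1 + |x|) ^ 8 := pow_le_pow_right₀ (by linarith) (by norm_num)
  calc (1 + |((⌊x⌋ : ℤ) : ℝ)|) ^ 2 ≤ (2 * (1 + |x|)) ^ 2 := pow_le_pow_left₀ (by positivity) (by linarith) 2
    _ = 4 * (1 + |x|) ^ 2 := by ring
    _ ≤ _ := by linarith

theorem lattice (F : Finset ℤ) (τ : ℝ) : ∑ h ∈ F, rho (τ + h) ≤ M1 := by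
  have hs := summ_int (s := 2) (by norm_num)
  calc ∑ h ∈ F, rho (τ + h) ≤ ∑ h ∈ F, 4 * (1 + |((⌊τ + h⌋ : ℤ) : ℝ)|) ^ (-(2 : ℝ)) :=
        Finset.sum_le_sum fun h _ => rho_floor _
    _ = 4 * ∑ h ∈ F, (1 + |((⌊τ⌋ + h : ℤ) : ℝ)|) ^ (-(2 : ℝ)) := by
        rw [Finset.mul_sum]
        refine Finset.sum_congr rfl fun h _ => ?_
        rw [Int.floor_add_intCast]
    _ = 4 * ∑ m ∈ F.image (fun h => ⌊τ⌋ + h), (1 + |(m : ℝ)|) ^ (-(2 : ℝ)) := by
        rw [Finset.sum_image]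
        intro a _ b _ h
        exact add_left_cancel h
    _ ≤ M1 := by
        unfold M1
        have := hs.sum_le_tsum (F.image (fun h => ⌊τ⌋ + h)) (fun m _ => by positivity)
        gcongr

/-- the difference of a pair -/
def hp (p : ℕ × ℕ) : ℤ := (p.1 : ℤ) - p.2

theorem pairs_le {W : Finset ℕ} {R : ℕ} (hR : FewDiff W R) {f : ℤ → ℝ} (hf : ∀ h, 0 ≤ f h) {M : ℝ}
    (hM : ∀ F : Finset ℤ, ∑ h ∈ F, f h ≤ M) : ∑ p ∈ W.offDiag, f (hp p) ≤ R * M := by
  rw [Finset.sum_comp f hp]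
  calc ∑ b ∈ W.offDiag.image hp, (#{a ∈ W.offDiag | hp a = b}) • f b
      ≤ ∑ b ∈ W.offDiag.image hp, (R : ℝ) * f b := by
        refine Finset.sum_le_sum fun b hb => ?_
        rw [nsmul_eq_mul]
        have hb0 : b ≠ 0 := by
          rw [Finset.mem_image] at hb
          obtain ⟨p, hp1, rfl⟩ := hb
          rw [Finset.mem_offDiag] at hp1
          unfold hp
          intro h
          apply hp1.2.2
          omega
        have h1 := hR b hb0
        have h2 : #{a ∈ W.offDiag | hp a = b} ≤ R := by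
          refine le_trans (Finset.card_le_card ?_) h1
          intro p hp1
          rw [Finset.mem_filter, Finset.mem_offDiag] at hp1
          rw [Finset.mem_filter, Finset.mem_product]
          exact ⟨⟨hp1.1.1, hp1.1.2.1⟩, hp1.2⟩
        have h3 : ((#{a ∈ W.offDiag | hp a = b} : ℕ) : ℝ) ≤ R := by exact_mod_cast h2
        exact mul_le_mul_of_nonneg_right h3 (hf b)
    _ = R * ∑ b ∈ W.offDiag.image hp, f b := by rw [Finset.mul_sum]
    _ ≤ R * M := by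
        have := hM (W.offDiag.image hp)
        gcongr

theorem sum_recip {ε : ℝ} (hε : 0 < ε) : ∃ C : ℝ, 1 ≤ C ∧ ∀ (T : ℕ) (W : Finset ℕ), 1 ≤ T → W ⊆ Finset.Icc 1 T →
    ∑ p ∈ W ×ˢ W, 1 / (1 + |((p.1 : ℝ) - p.2)|) ≤ C * (T : ℝ) ^ ε * W.card := by
  have hs := summ_int (s := 1 + ε) (by linarith)
  refine ⟨(∑' m : ℤ, (1 + |(m : ℝ)|) ^ (-(1 + ε))) + 1, ?_, fun T W hT hW => ?_⟩
  · have : 0 ≤ ∑' m : ℤ, (1 + |(m : ℝ)|) ^ (-(1 + ε)) := tsum_nonneg fun m => by positivity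
    linarith
  · set S := ∑' m : ℤ, (1 + |(m : ℝ)|) ^ (-(1 + ε)) with hS
    have hS0 : 0 ≤ S := tsum_nonneg fun m => by positivity
    have hT' : (1 : ℝ) ≤ T := by exact_mod_cast hT
    rw [Finset.sum_product]
    have key : ∀ t ∈ W, ∑ t' ∈ W, 1 / (1 + |((t : ℝ) - t')|) ≤ (T : ℝ) ^ ε * S := by
      intro t ht
      have h1 : ∀ t' ∈ W, 1 / (1 + |((t : ℝ) - t')|) ≤
          (T : ℝ) ^ ε * (1 + |(((t : ℤ) - t' : ℤ) : ℝ)|) ^ (-(1 + ε)) := by
        intro t' ht'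
        have e : (((t : ℤ) - t' : ℤ) : ℝ) = (t : ℝ) - t' := by push_cast; ring
        rw [e]
        have a1 := Finset.mem_Icc.1 (hW ht)
        have a2 := Finset.mem_Icc.1 (hW ht')
        have a3 : (1 : ℝ) ≤ t := by exact_mod_cast a1.1
        have a4 : (t : ℝ) ≤ T := by exact_mod_cast a1.2
        have a5 : (1 : ℝ) ≤ t' := by exact_mod_cast a2.1
        have a6 : (t' : ℝ) ≤ T := by exact_mod_cast a2.2
        have a7 : 1 + |(t : ℝ) - t'| ≤ T := by
          have : |(t : ℝ) - t'| ≤ T - 1 := by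
            rw [abs_le]; constructor <;> linarith
          linarith
        have a8 : (0 : ℝ) < 1 + |(t : ℝ) - t'| := by positivity
        rw [neg_add, Real.rpow_add a8, Real.rpow_neg_one, one_div]
        have a9 : 1 ≤ (T : ℝ) ^ ε * (1 + |(t : ℝ) - t'|) ^ (-ε) := by
          rw [Real.rpow_neg a8.le, ← div_eq_mul_inv, le_div_iff₀ (by positivity), one_mul]
          exact Real.rpow_le_rpow a8.le a7 hε.le
        have a10 : 0 < (1 + |(t : ℝ) - t'|)⁻¹ := by positivity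
        nlinarith
      calc ∑ t' ∈ W, 1 / (1 + |((t : ℝ) - t')|)
          ≤ ∑ t' ∈ W, (T : ℝ) ^ ε * (1 + |(((t : ℤ) - t' : ℤ) : ℝ)|) ^ (-(1 + ε)) :=
            Finset.sum_le_sum h1
        _ = (T : ℝ) ^ ε * ∑ m ∈ W.image (fun t' : ℕ => (t : ℤ) - t'), (1 + |(m : ℝ)|) ^ (-(1 + ε)) := by
            rw [Finset.sum_image, Finset.mul_sum]
            intro a _ b _ h
            simp only at h
            omega
        _ ≤ (T : ℝ) ^ ε * S := by
            have := hs.sum_le_tsum (W.image (fun t' : ℕ => (t : ℤ) - t')) (fun m _ => by positivity)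
            gcongr
    calc ∑ t ∈ W, ∑ t' ∈ W, 1 / (1 + |((t : ℝ) - t')|) ≤ ∑ t ∈ W, (T : ℝ) ^ ε * S :=
          Finset.sum_le_sum key
      _ = (T : ℝ) ^ ε * S * W.card := by rw [Finset.sum_const, nsmul_eq_mul]; ring
      _ ≤ (S + 1) * (T : ℝ) ^ ε * W.card := by
          have h1 : 0 ≤ (T : ℝ) ^ ε := by positivity
          have h2 : (0 : ℝ) ≤ W.card := Nat.cast_nonneg _
          have h3 : 0 ≤ (T : ℝ) ^ ε * W.card := by positivity
          nlinarith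

/-- the fourth moment up to `2T` -/
theorem four_le {ε : ℝ} (hε : 0 < ε) : ∃ C : ℝ, 1 ≤ C ∧ ∀ T : ℕ, 1 ≤ T →
    ∫ τ in Set.Icc (-(2 * (T : ℝ))) (2 * T), zt τ ^ 4 ≤ C * (T : ℝ) ^ (1 + ε) := by
  set D := 8 / 5 * (4 / ε) ^ 4 * (1002 : ℝ) ^ (1 + ε) with hD
  refine ⟨1 + D, ?_, fun T hT => ?_⟩
  · have : 0 ≤ D := by positivity
    linarith
  have hT' : (1 : ℝ) ≤ T := by exact_mod_cast hT
  set X : ℝ := 2 * T + 1000 with hX
  have hX0 : 1000 ≤ X := by rw [hX]; linarith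
  have hc : Continuous (fun τ => zt τ ^ 4) := zt_cont.pow 4
  have h1 : ∫ τ in Set.Icc (-(2 * (T : ℝ))) (2 * T), zt τ ^ 4 ≤ ∫ τ in Set.Icc (-X) X, zt τ ^ 4 := by
    refine setIntegral_mono_set (hc.integrableOn_Icc) ?_ ?_
    · exact Eventually.of_forall fun τ => by positivity
    · refine (Set.Icc_subset_Icc ?_ ?_).eventuallyLE
      · rw [hX]; linarith
      · rw [hX]; linarith
  have h2 : ∫ τ in Set.Icc (-X) X, zt τ ^ 4 = ∫ τ in (-X)..X, zt τ ^ 4 := by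
    rw [intervalIntegral.integral_of_le (by linarith), integral_Icc_eq_integral_Ioc]
  have h3 : ∫ τ in (-X)..X, zt τ ^ 4 = (∫ τ in (-X)..0, zt τ ^ 4) + ∫ τ in (0 : ℝ)..X, zt τ ^ 4 :=
    (intervalIntegral.integral_add_adjacent_intervals (hc.intervalIntegrable _ _)
      (hc.intervalIntegrable _ _)).symm
  have h4 : ∫ τ in (-X)..0, zt τ ^ 4 = ∫ τ in (0 : ℝ)..X, zt τ ^ 4 := by
    have := intervalIntegral.integral_comp_neg (a := 0) (b := X) (fun τ => zt τ ^ 4)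
    rw [neg_zero] at this
    rw [← this]
    refine intervalIntegral.integral_congr fun τ _ => ?_
    simp only [zt_neg]
  have h5 : ∫ τ in (0 : ℝ)..X, zt τ ^ 4 ≤ 4 / 5 * (X * Real.log X ^ 4) :=
    Pool.Agent.TH158.FM.fourth_all X hX0
  have h6 : Real.log X ≤ X ^ (ε / 4) / (ε / 4) := Real.log_le_rpow_div (by linarith) (by positivity)
  have h7 : 0 ≤ Real.log X := Real.log_nonneg (by linarith)
  have h8 : Real.log X ^ 4 ≤ X ^ ε * (4 / ε) ^ 4 := by
    calc Real.log X ^ 4 ≤ (X ^ (ε / 4) / (ε / 4)) ^ 4 := by gcongr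
      _ = (X ^ (ε / 4)) ^ 4 * (4 / ε) ^ 4 := by field_simp
      _ = X ^ ε * (4 / ε) ^ 4 := by
          congr 1
          rw [← Real.rpow_natCast, ← Real.rpow_mul (by linarith)]
          congr 1
          push_cast
          field_simp
  have h9 : X ≤ 1002 * T := by rw [hX]; linarith
  have h10 : X * X ^ ε ≤ (1002 : ℝ) ^ (1 + ε) * (T : ℝ) ^ (1 + ε) := by
    rw [← Real.rpow_one_add' (by linarith) (by positivity), ← Real.mul_rpow (by norm_num) (by linarith)]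
    exact Real.rpow_le_rpow (by linarith) h9 (by linarith)
  rw [h2, h3, h4] at h1
  have h11 : 0 ≤ (4 / ε) ^ 4 := by positivity
  calc _ ≤ _ := h1
    _ ≤ 8 / 5 * (X * Real.log X ^ 4) := by linarith
    _ ≤ 8 / 5 * (X * (X ^ ε * (4 / ε) ^ 4)) := by gcongr
    _ = 8 / 5 * (4 / ε) ^ 4 * (X * X ^ ε) := by ring
    _ ≤ 8 / 5 * (4 / ε) ^ 4 * ((1002 : ℝ) ^ (1 + ε) * (T : ℝ) ^ (1 + ε)) := by gcongr
    _ = D * (T : ℝ) ^ (1 + ε) := by rw [hD]; ring
    _ ≤ (1 + D) * (T : ℝ) ^ (1 + ε) := by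
        have : 0 ≤ (T : ℝ) ^ (1 + ε) := by positivity
        nlinarith

/-- the constant `∫ (1+|τ|)^{-2}` -/
def M2 : ℝ := ∫ τ : ℝ, (1 + ‖τ‖) ^ (-(2 : ℝ))

theorem M2_nonneg : 0 ≤ M2 := integral_nonneg fun τ => by positivity

theorem zt4_bd (τ : ℝ) : |zt τ ^ 4| ≤ 81 * (1 + |τ|) ^ 5 := by
  have h := zt_le τ
  have h0 := abs_nonneg τ
  rw [abs_of_nonneg (pow_nonneg (zt_nonneg τ) 4)]
  calc zt τ ^ 4 ≤ (3 * (1 + |τ|)) ^ 4 := pow_le_pow_left₀ (zt_nonneg τ) (by linarith) 4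
    _ = 81 * (1 + |τ|) ^ 4 := by ring
    _ ≤ 81 * (1 + |τ|) ^ 5 := by
        have : (1 + |τ|) ^ 4 ≤ (1 + |τ|) ^ 5 := pow_le_pow_right₀ (by linarith) (by norm_num)
        linarith

/-- the fourth moment over the differences -/
theorem Q_le {ε : ℝ} (hε : 0 < ε) : ∃ C : ℝ, 1 ≤ C ∧ ∀ (T R : ℕ) (W : Finset ℕ), 1 ≤ T → 1 ≤ R →
    W ⊆ Finset.Icc 1 T → FewDiff W R →
    ∑ p ∈ W.offDiag, ∫ τ : ℝ, rho (τ + (hp p : ℝ)) * zt τ ^ 4 ≤ C * (R * (T : ℝ) ^ (1 + ε)) := by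
  obtain ⟨C0, hC0, h4⟩ := four_le hε
  have hM1 := M1_nonneg
  have hM2 := M2_nonneg
  refine ⟨M1 * C0 + 256 * 81 * M2 + 1, by nlinarith [mul_nonneg hM1 (by linarith : 0 ≤ C0)],
    fun T R W hT hR hW hFD => ?_⟩
  have hT' : (1 : ℝ) ≤ T := by exact_mod_cast hT
  have hR' : (1 : ℝ) ≤ R := by exact_mod_cast hR
  have hc4 : Continuous (fun τ => zt τ ^ 4) := zt_cont.pow 4
  have hint : ∀ p ∈ W.offDiag, Integrable (fun τ : ℝ => rho (τ + (hp p : ℝ)) * zt τ ^ 4) :=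
    fun p _ => rho_int hc4 zt4_bd _
  rw [← integral_finsetSum _ hint]
  have hwT : (W.card : ℝ) ≤ T := by
    have := Finset.card_le_card hW
    rw [Nat.card_Icc] at this
    have h2 : W.card ≤ T := by omega
    exact_mod_cast h2
  have hpt : ∀ τ : ℝ, ∑ p ∈ W.offDiag, rho (τ + (hp p : ℝ)) * zt τ ^ 4 ≤
      (R * M1) * (Set.Icc (-(2 * (T : ℝ))) (2 * T)).indicator (fun τ => zt τ ^ 4) τ +
        (256 * 81) * (1 + ‖τ‖) ^ (-(2 : ℝ)) := by
    intro τ
    have hz0 : 0 ≤ zt τ ^ 4 := pow_nonneg (zt_nonneg τ) 4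
    rw [← Finset.sum_mul]
    have hr0 : 0 ≤ (256 * 81) * (1 + ‖τ‖) ^ (-(2 : ℝ)) := by positivity
    by_cases hτ : τ ∈ Set.Icc (-(2 * (T : ℝ))) (2 * T)
    · rw [Set.indicator_of_mem hτ]
      have h1 := pairs_le hFD (f := fun h : ℤ => rho (τ + h)) (fun h => rho_nonneg _)
        (fun F => lattice F τ)
      have h2 : (∑ p ∈ W.offDiag, rho (τ + (hp p : ℝ))) * zt τ ^ 4 ≤ (R * M1) * zt τ ^ 4 := by
        gcongr
      linarith
    · rw [Set.indicator_of_notMem hτ, mul_zero, zero_add]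
      have hτ2 : 2 * (T : ℝ) < |τ| := by
        by_contra hcon
        apply hτ
        exact abs_le.1 (not_lt.1 hcon)
      have h1 : ∀ p ∈ W.offDiag, rho (τ + (hp p : ℝ)) ≤ 256 * ((1 + |τ|) ^ 8)⁻¹ := by
        intro p hp1
        rw [Finset.mem_offDiag] at hp1
        have a1 := Finset.mem_Icc.1 (hW hp1.1)
        have a2 := Finset.mem_Icc.1 (hW hp1.2.1)
        have a3 : (1 : ℝ) ≤ p.1 := by exact_mod_cast a1.1
        have a4 : (p.1 : ℝ) ≤ T := by exact_mod_cast a1.2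
        have a5 : (1 : ℝ) ≤ p.2 := by exact_mod_cast a2.1
        have a6 : (p.2 : ℝ) ≤ T := by exact_mod_cast a2.2
        have e : (hp p : ℝ) = (p.1 : ℝ) - p.2 := by unfold hp; push_cast; ring
        have a7 : |(hp p : ℝ)| ≤ T := by
          rw [e, abs_le]; constructor <;> linarith
        have a8 : |τ| ≤ |τ + (hp p : ℝ)| + |(hp p : ℝ)| := by
          have := abs_sub (τ + (hp p : ℝ)) (hp p : ℝ)
          simpa using this
        have a9 : (1 + |τ|) / 2 ≤ 1 + |τ + (hp p : ℝ)| := by linarith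
        unfold rho
        calc ((1 + |τ + (hp p : ℝ)|) ^ 8)⁻¹ ≤ (((1 + |τ|) / 2) ^ 8)⁻¹ := by
              apply inv_anti₀ (by positivity)
              exact pow_le_pow_left₀ (by positivity) a9 8
          _ = 256 * ((1 + |τ|) ^ 8)⁻¹ := by
              rw [div_pow, inv_div, div_eq_mul_inv]; norm_num
      have h2 : ∑ p ∈ W.offDiag, rho (τ + (hp p : ℝ)) ≤ (T : ℝ) ^ 2 * (256 * ((1 + |τ|) ^ 8)⁻¹) := by
        refine (Finset.sum_le_sum h1).trans ?_
        rw [Finset.sum_const, nsmul_eq_mul]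
        have h3 : ((W.offDiag.card : ℕ) : ℝ) ≤ (T : ℝ) ^ 2 := by
          have h4 : W.offDiag.card ≤ W.card * W.card := by rw [Finset.offDiag_card]; omega
          have h5 : ((W.offDiag.card : ℕ) : ℝ) ≤ (W.card : ℝ) * W.card := by exact_mod_cast h4
          have h6 : (0 : ℝ) ≤ W.card := Nat.cast_nonneg _
          nlinarith
        gcongr
      have h3 : zt τ ^ 4 ≤ 81 * (1 + |τ|) ^ 4 := by
        have h := zt_le τ
        have h0 := abs_nonneg τ
        calc zt τ ^ 4 ≤ (3 * (1 + |τ|)) ^ 4 := pow_le_pow_left₀ (zt_nonneg τ) (by linarith) 4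
          _ = 81 * (1 + |τ|) ^ 4 := by ring
      have h4 : (T : ℝ) ^ 2 ≤ (1 + |τ|) ^ 2 := pow_le_pow_left₀ (by linarith) (by linarith) 2
      rw [Real.norm_eq_abs, Real.rpow_neg (by positivity), Real.rpow_two]
      calc (∑ p ∈ W.offDiag, rho (τ + (hp p : ℝ))) * zt τ ^ 4
          ≤ ((1 + |τ|) ^ 2 * (256 * ((1 + |τ|) ^ 8)⁻¹)) * (81 * (1 + |τ|) ^ 4) := by
            have h0 : 0 ≤ ∑ p ∈ W.offDiag, rho (τ + (hp p : ℝ)) := Finset.sum_nonneg fun p _ => rho_nonneg _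
            refine mul_le_mul (h2.trans ?_) h3 hz0 (by positivity)
            gcongr
        _ = 256 * 81 * ((1 + |τ|) ^ 2)⁻¹ := by
            have : (1 + |τ|) ≠ 0 := by positivity
            field_simp
  have hi1 : Integrable (fun τ : ℝ => (R * M1) *
      (Set.Icc (-(2 * (T : ℝ))) (2 * T)).indicator (fun τ => zt τ ^ 4) τ) := by
    refine Integrable.const_mul ?_ _
    rw [integrable_indicator_iff measurableSet_Icc]
    exact hc4.integrableOn_Icc
  have hi2 : Integrable (fun τ : ℝ => (256 * 81) * (1 + ‖τ‖) ^ (-(2 : ℝ))) :=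
    Pool.Agent.H777R2.SM.integrable_weight.const_mul _
  have hi0 : Integrable (fun τ : ℝ => ∑ p ∈ W.offDiag, rho (τ + (hp p : ℝ)) * zt τ ^ 4) :=
    integrable_finsetSum _ hint
  have hmono := integral_mono hi0 (hi1.add hi2) hpt
  simp only [Pi.add_apply] at hmono
  rw [integral_add hi1 hi2, integral_const_mul, integral_const_mul,
    integral_indicator measurableSet_Icc] at hmono
  have h5 := h4 T hT
  have h6 : (1 : ℝ) ≤ (T : ℝ) ^ (1 + ε) := Real.one_le_rpow hT' (by linarith)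
  have h7 : (1 : ℝ) ≤ R * (T : ℝ) ^ (1 + ε) := by nlinarith
  calc _ ≤ (R * M1) * (∫ τ in Set.Icc (-(2 * (T : ℝ))) (2 * T), zt τ ^ 4) + (256 * 81) * M2 := hmono
    _ ≤ (R * M1) * (C0 * (T : ℝ) ^ (1 + ε)) + (256 * 81) * M2 * (R * (T : ℝ) ^ (1 + ε)) := by
        have k1 : 0 ≤ (256 * 81) * M2 := by positivity
        have k2 := mul_le_mul_of_nonneg_left h5 (mul_nonneg (by linarith : (0 : ℝ) ≤ R) hM1)
        have k3 := mul_le_mul_of_nonneg_left h7 k1
        linarith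
    _ = (M1 * C0 + 256 * 81 * M2) * (R * (T : ℝ) ^ (1 + ε)) := by ring
    _ ≤ (M1 * C0 + 256 * 81 * M2 + 1) * (R * (T : ℝ) ^ (1 + ε)) := by nlinarith

end

end Pool.Agent.K6.H1.MQ
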