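import Pool.Agent.H204R2.EM_T6
import Pool.Agent.H295R2.P

set_option autoImplicit false

/-!
The kernel `Σ n^{iu} e^{-n/V}`: the holomorphic part and its bound.
-/

namespace Pool.Agent.K6.H1.MQ

open Complex MeasureTheory Set Filter Topology

noncomputable section

/-- `Γ(s) V^s` -/
def EV (V : ℝ) (s : ℂ) : ℂ := Complex.Gamma s * (V : ℂ) ^ s

/-- numerator -/
def MV (V u : ℝ) (s : ℂ) : ℂ := EV V s * riemannZeta₁ (s - u * I) -
  EV V (1 + u * I) * Complex.exp ((s - (1 + u * I)) ^ 2)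

/-- the holomorphic part -/
def HV (V u : ℝ) (s : ℂ) : ℂ := dslope (MV V u) (1 + u * I) s

theorem EV_diffAt {V : ℝ} (hV : 0 < V) {s : ℂ} (hs : 0 < s.re) :
    DifferentiableAt ℂ (EV V) s := by
  unfold EV
  have h1 : DifferentiableAt ℂ Complex.Gamma s := by
    refine Complex.differentiableAt_Gamma s fun m h => ?_
    rw [h] at hs
    simp at hs
    have : (0:ℝ) ≤ m := Nat.cast_nonneg m
    linarith
  have h3 : DifferentiableAt ℂ (fun s : ℂ => (V : ℂ) ^ s) s :=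
    differentiableAt_id.const_cpow (Or.inl (by exact_mod_cast hV.ne'))
  exact h1.mul h3

theorem MV_diffAt {V u : ℝ} (hV : 0 < V) {s : ℂ} (hs : 0 < s.re) :
    DifferentiableAt ℂ (MV V u) s := by
  have h1 := EV_diffAt hV hs
  have h2 : DifferentiableAt ℂ (fun s : ℂ => riemannZeta₁ (s - u * I)) s :=
    (differentiable_riemannZeta₁ _).comp s (by fun_prop)
  have h3 : DifferentiableAt ℂ (fun s : ℂ => Complex.exp ((s - (1 + u * I)) ^ 2)) s := by fun_prop
  unfold MV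
  exact (h1.fun_mul h2).fun_sub (h3.const_mul _)

theorem MV_zero (V u : ℝ) : MV V u (1 + u * I) = 0 := by
  unfold MV
  have h1 : (1 : ℂ) + u * I - u * I = 1 := by ring
  rw [h1, riemannZeta₁_one]
  simp

theorem HV_diffAt {V u : ℝ} (hV : 0 < V) {s : ℂ} (hs : 0 < s.re) :
    DifferentiableAt ℂ (HV V u) s := by
  have hU : IsOpen {s : ℂ | 0 < s.re} := isOpen_lt continuous_const Complex.continuous_re
  have h1 : DifferentiableOn ℂ (MV V u) {s : ℂ | 0 < s.re} :=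
    fun z hz => (MV_diffAt hV hz).differentiableWithinAt
  have hn : {s : ℂ | 0 < s.re} ∈ 𝓝 (1 + u * I : ℂ) := hU.mem_nhds (by simp)
  have h2 := (Complex.differentiableOn_dslope hn).2 h1
  exact (h2 s hs).differentiableAt (hU.mem_nhds hs)

theorem HV_eq {V u : ℝ} {s : ℂ} (hs : s ≠ 1 + u * I) :
    HV V u s = EV V s * riemannZeta (s - u * I) -
      EV V (1 + u * I) * (Complex.exp ((s - (1 + u * I)) ^ 2) / (s - (1 + u * I))) := by
  have hs' := sub_ne_zero.mpr hs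
  have hs1 : s - u * I ≠ 1 := by
    intro h
    apply hs
    rw [← h]; ring
  unfold HV
  rw [dslope_of_ne _ hs, slope_def_field, MV_zero]
  unfold MV
  rw [riemannZeta_eq_inv_sub_mul hs1]
  have e : s - u * I - 1 = s - (1 + u * I) := by ring
  rw [e]
  field_simp
  ring

theorem Gamma_strip {N : ℕ} (hN : 2 ≤ N) {s : ℂ} (h1 : 1 / 2 ≤ s.re) (h2 : s.re ≤ 2) :
    ‖Complex.Gamma s‖ ≤ 4 ^ N * Real.Gamma (2 + N) / (1 + |s.im|) ^ N := by
  have es : s = (s.re : ℂ) + (s.im : ℂ) * I := (Complex.re_add_im s).symm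
  have h := Pool.Agent.H777R2.SM.Gamma_line_bound s.re h1 N s.im
  rw [← es] at h
  refine h.trans ?_
  have hN' : (2 : ℝ) ≤ N := by exact_mod_cast hN
  have h3 : Real.Gamma (s.re + N) ≤ Real.Gamma (2 + N) := by
    apply Real.Gamma_strictMonoOn_Ici.monotoneOn
    · rw [Set.mem_Ici]; linarith
    · rw [Set.mem_Ici]; linarith
    · linarith
  have h4 : 0 < (1 + |s.im|) ^ N := by positivity
  gcongr

theorem rpow_bd (y : ℝ) (hy : 0 ≤ y) :
    ((1 + y) ^ 2)⁻¹ ≤ (1 + y) ^ (-(3 / 2 : ℝ)) := by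
  have h1 : ((1 + y) ^ 2)⁻¹ = (1 + y) ^ (-2 : ℝ) := by
    rw [Real.rpow_neg (by positivity), Real.rpow_two]
  rw [h1]
  exact Real.rpow_le_rpow_of_exponent_le (by linarith) (by norm_num)

theorem gauss_bd (v : ℝ) : Real.exp (-v ^ 2) ≤ 2 * ((1 + |v|) ^ 2)⁻¹ := by
  have h1 : 1 + v ^ 2 ≤ Real.exp (v ^ 2) := by
    have := Real.add_one_le_exp (v ^ 2)
    linarith
  have h2 : (1 + |v|) ^ 2 ≤ 2 * (1 + v ^ 2) := by
    have : v ^ 2 = |v| ^ 2 := (sq_abs v).symm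
    nlinarith [sq_nonneg (1 - |v|)]
  have h3 : (0 : ℝ) < (1 + |v|) ^ 2 := by positivity
  rw [Real.exp_neg]
  calc (Real.exp (v ^ 2))⁻¹ ≤ (1 + v ^ 2)⁻¹ := inv_anti₀ (by positivity) h1
    _ ≤ ((1 + |v|) ^ 2 / 2)⁻¹ := inv_anti₀ (by positivity) (by linarith)
    _ = 2 * ((1 + |v|) ^ 2)⁻¹ := by rw [inv_div]; rfl

theorem sq_re (c v : ℝ) (u : ℝ) : ((((1 + c : ℝ) : ℂ) + (v + u : ℝ) * I - (1 + u * I)) ^ 2).re = c ^ 2 - v ^ 2 := by
  have : ((1 + c : ℝ) : ℂ) + (v + u : ℝ) * I - (1 + u * I) = (c : ℂ) + v * I := by push_cast; ring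
  rw [this, sq]
  simp
  ring

theorem exp_nrm (u : ℝ) (s : ℂ) : ‖Complex.exp ((s - (1 + u * I)) ^ 2)‖ =
    Real.exp ((s.re - 1) ^ 2) * Real.exp (-(s.im - u) ^ 2) := by
  rw [Complex.norm_exp, ← Real.exp_add]
  congr 1
  rw [sq]
  simp
  ring

theorem HV_bound {V u : ℝ} (hV : 0 < V) :
    ∃ B : ℝ, ∀ s : ℂ, 1 / 2 ≤ s.re → s.re ≤ 2 →
      ‖HV V u s‖ ≤ B * (1 + |s.im|) ^ (-(3 / 2 : ℝ)) := by
  -- compact part
  have hcpt : IsCompact (Set.Icc (1 / 2 : ℝ) 2 ×ℂ Set.Icc (u - 1 : ℝ) (u + 1)) :=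
    isCompact_Icc.reProdIm isCompact_Icc
  obtain ⟨M, hM⟩ := hcpt.exists_bound_of_continuousOn (f := HV V u) (by
    intro s hs
    rw [Complex.mem_reProdIm] at hs
    exact (HV_diffAt hV (by linarith [hs.1.1])).continuousAt.continuousWithinAt)
  have hM0 : 0 ≤ M := (norm_nonneg _).trans (hM (1 + u * I) (by
    rw [Complex.mem_reProdIm]
    constructor
    · constructor <;> simp <;> norm_num
    · constructor <;> simp))
  -- power of `V`
  set Vm := max 1 (V ^ (2 : ℝ)) with hVm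
  have hVs : ∀ s : ℂ, 1 / 2 ≤ s.re → s.re ≤ 2 → ‖(V : ℂ) ^ s‖ ≤ Vm := by
    intro s h1 h2
    rw [Complex.norm_cpow_eq_rpow_re_of_pos hV]
    rcases le_or_gt 1 V with h | h
    · exact (Real.rpow_le_rpow_of_exponent_le h h2).trans (le_max_right _ _)
    · exact (Real.rpow_le_one hV.le h.le (by linarith)).trans (le_max_left _ _)
  have hVm0 : 0 ≤ Vm := le_trans zero_le_one (le_max_left _ _)
  set G4 := 4 ^ 4 * Real.Gamma (2 + (4 : ℕ)) with hG4
  have hG40 : 0 ≤ G4 := by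
    have : 0 ≤ Real.Gamma (2 + (4 : ℕ)) := (Real.Gamma_pos_of_pos (by positivity)).le
    positivity
  set D := G4 * Vm * (5 * (4 + |u|) ^ 2) + ‖EV V (1 + u * I)‖ * (Real.exp 1 * (2 * (1 + |u|) ^ 2)) with hD
  have hD0 : 0 ≤ D := by positivity
  refine ⟨M * (2 + |u|) ^ 2 + D, fun s hs1 hs2 => ?_⟩
  have ht := abs_nonneg s.im
  have hu := abs_nonneg u
  have b4 := rpow_bd |s.im| ht
  have hinv0 : 0 ≤ ((1 + |s.im|) ^ 2)⁻¹ := by positivity
  suffices hsuf : ‖HV V u s‖ ≤ (M * (2 + |u|) ^ 2 + D) * ((1 + |s.im|) ^ 2)⁻¹ by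
    refine hsuf.trans ?_
    have : 0 ≤ M * (2 + |u|) ^ 2 + D := by positivity
    gcongr
  rcases le_or_gt |s.im - u| 1 with h | h
  · have hh := abs_le.1 h
    have a1 := hM s (by
      rw [Complex.mem_reProdIm]
      exact ⟨⟨hs1, hs2⟩, ⟨by linarith, by linarith⟩⟩)
    have a3 : |s.im| ≤ 1 + |u| := by
      have := abs_sub_abs_le_abs_sub s.im u
      linarith
    have a2 : (1 : ℝ) ≤ (2 + |u|) ^ 2 * ((1 + |s.im|) ^ 2)⁻¹ := by
      rw [← div_eq_mul_inv, le_div_iff₀ (by positivity), one_mul]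
      exact pow_le_pow_left₀ (by positivity) (by linarith) 2
    calc ‖HV V u s‖ ≤ M := a1
      _ = M * 1 := (mul_one M).symm
      _ ≤ M * ((2 + |u|) ^ 2 * ((1 + |s.im|) ^ 2)⁻¹) := by gcongr
      _ = (M * (2 + |u|) ^ 2) * ((1 + |s.im|) ^ 2)⁻¹ := by ring
      _ ≤ (M * (2 + |u|) ^ 2 + D) * ((1 + |s.im|) ^ 2)⁻¹ := by
          have : M * (2 + |u|) ^ 2 ≤ M * (2 + |u|) ^ 2 + D := by linarith
          gcongr
  · have him : (s - (1 + u * I)).im = s.im - u := by simp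
    have hne : s ≠ 1 + u * I := by
      rintro rfl
      simp at h
      linarith
    have n1 : 1 ≤ ‖s - (1 + u * I)‖ := by
      have := Complex.abs_im_le_norm (s - (1 + u * I))
      rw [him] at this
      linarith
    -- zeta
    have b3 : ‖EV V s * riemannZeta (s - u * I)‖ ≤
        G4 * Vm * (5 * (4 + |u|) ^ 2) * ((1 + |s.im|) ^ 2)⁻¹ := by
      have hne1 : s - u * I ≠ 1 := by
        intro h5
        apply hne
        rw [← h5]; ring
      have z1 := Pool.Agent.H295R2.Zs_norm_le (s := s - u * I) (by simp; linarith)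
      rw [← Pool.Agent.H295R2.Zs_eq hne1, norm_mul] at z1
      have e : s - u * I - 1 = s - (1 + u * I) := by ring
      rw [e] at z1
      have z2 : ‖riemannZeta (s - u * I)‖ ≤ 5 * (‖s - u * I‖ + 1) ^ 2 := by
        nlinarith [norm_nonneg (riemannZeta (s - u * I)), norm_nonneg (s - u * I)]
      have n3 : ‖s - u * I‖ + 1 ≤ (4 + |u|) * (1 + |s.im|) := by
        have n4 := Complex.norm_le_abs_re_add_abs_im (s - u * I)
        have n5 : (s - u * I).re = s.re := by simp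
        have n6 : (s - u * I).im = s.im - u := by simp
        rw [n5, n6, abs_of_nonneg (by linarith)] at n4
        have n7 : |s.im - u| ≤ |s.im| + |u| := abs_sub _ _
        nlinarith
      have z3 : ‖riemannZeta (s - u * I)‖ ≤ 5 * (4 + |u|) ^ 2 * (1 + |s.im|) ^ 2 := by
        refine z2.trans ?_
        calc 5 * (‖s - u * I‖ + 1) ^ 2 ≤ 5 * ((4 + |u|) * (1 + |s.im|)) ^ 2 := by gcongr
          _ = 5 * (4 + |u|) ^ 2 * (1 + |s.im|) ^ 2 := by ring
      have g1 := Gamma_strip (N := 4) (by norm_num) hs1 hs2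
      have g2 := hVs s hs1 hs2
      unfold EV
      rw [norm_mul, norm_mul]
      have hp : (0 : ℝ) < (1 + |s.im|) ^ 4 := by positivity
      calc ‖Complex.Gamma s‖ * ‖(V : ℂ) ^ s‖ * ‖riemannZeta (s - u * I)‖
          ≤ (G4 / (1 + |s.im|) ^ 4) * Vm * (5 * (4 + |u|) ^ 2 * (1 + |s.im|) ^ 2) := by
            rw [hG4]
            gcongr
        _ = G4 * Vm * (5 * (4 + |u|) ^ 2) * ((1 + |s.im|) ^ 2)⁻¹ := by
            field_simp
    have b5 : ‖EV V (1 + u * I) * (Complex.exp ((s - (1 + u * I)) ^ 2) / (s - (1 + u * I)))‖ ≤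
        ‖EV V (1 + u * I)‖ * (Real.exp 1 * (2 * (1 + |u|) ^ 2)) * ((1 + |s.im|) ^ 2)⁻¹ := by
      rw [norm_mul, norm_div, exp_nrm]
      have c1 : Real.exp ((s.re - 1) ^ 2) ≤ Real.exp 1 := by
        apply Real.exp_le_exp.2
        nlinarith
      have c2 := gauss_bd (s.im - u)
      have c3 : ((1 + |s.im - u|) ^ 2)⁻¹ ≤ (1 + |u|) ^ 2 * ((1 + |s.im|) ^ 2)⁻¹ := by
        rw [← div_eq_mul_inv, inv_eq_one_div, div_le_div_iff₀ (by positivity) (by positivity), one_mul,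
          ← mul_pow]
        have c4 : |s.im| ≤ |s.im - u| + |u| := by
          have := abs_sub_abs_le_abs_sub s.im u
          linarith
        have c5 := abs_nonneg (s.im - u)
        have : 1 + |s.im| ≤ (1 + |u|) * (1 + |s.im - u|) := by nlinarith
        gcongr
      have c6 : Real.exp (-(s.im - u) ^ 2) ≤ 2 * (1 + |u|) ^ 2 * ((1 + |s.im|) ^ 2)⁻¹ := by
        calc Real.exp (-(s.im - u) ^ 2) ≤ 2 * ((1 + |s.im - u|) ^ 2)⁻¹ := c2
          _ ≤ 2 * ((1 + |u|) ^ 2 * ((1 + |s.im|) ^ 2)⁻¹) := by gcongr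
          _ = _ := by ring
      have c7 : Real.exp ((s.re - 1) ^ 2) * Real.exp (-(s.im - u) ^ 2) / ‖s - (1 + u * I)‖ ≤
          Real.exp 1 * (2 * (1 + |u|) ^ 2 * ((1 + |s.im|) ^ 2)⁻¹) := by
        refine (div_le_self (by positivity) n1).trans ?_
        gcongr
      calc ‖EV V (1 + u * I)‖ * (Real.exp ((s.re - 1) ^ 2) * Real.exp (-(s.im - u) ^ 2) /
            ‖s - (1 + u * I)‖) ≤ ‖EV V (1 + u * I)‖ *
            (Real.exp 1 * (2 * (1 + |u|) ^ 2 * ((1 + |s.im|) ^ 2)⁻¹)) := by gcongr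
        _ = _ := by ring
    rw [HV_eq hne]
    calc _ ≤ ‖EV V s * riemannZeta (s - u * I)‖ +
          ‖EV V (1 + u * I) * (Complex.exp ((s - (1 + u * I)) ^ 2) / (s - (1 + u * I)))‖ := norm_sub_le _ _
      _ ≤ D * ((1 + |s.im|) ^ 2)⁻¹ := by rw [hD, add_mul]; gcongr
      _ ≤ (M * (2 + |u|) ^ 2 + D) * ((1 + |s.im|) ^ 2)⁻¹ := by
          have : 0 ≤ M * (2 + |u|) ^ 2 := by positivity
          gcongr
          linarith

end

end Pool.Agent.K6.H1.MQ
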