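import Pool.Agent.K6.H1.MQ.Defs
import Pool.Agent.K6.H1.MQ.KerA
import Pool.Agent.TH158.FM.Main

set_option autoImplicit false

/-!
The kernel `Σ n^{iu} e^{-n/V}` is at most `C (V/(1+|u|) + V^{1/2} ∫ (1+|τ+u|)^{-8} |ζ(1/2+iτ)| dτ)`.
-/

namespace Pool.Agent.K6.H1.MQ

open Complex MeasureTheory Set Filter Topology

noncomputable section

/-- coefficients `n^{iu}` with value `0` at `0` -/
def au (u : ℝ) (n : ℕ) : ℂ := if n = 0 then 0 else en n u

/-- the kernel -/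
def KV (V u : ℝ) : ℂ := ∑' n : ℕ, au u n * ((Real.exp (-((n : ℝ) / V)) : ℝ) : ℂ)

theorem en_norm (n : ℕ) (u : ℝ) : ‖en n u‖ = 1 := by
  unfold en
  have e : I * (u : ℂ) * ((Real.log (n : ℝ) : ℝ) : ℂ) = ((u * Real.log n : ℝ) : ℂ) * I := by
    push_cast; ring
  rw [e]
  exact Complex.norm_exp_ofReal_mul_I _

theorem en_cpow {n : ℕ} (hn : n ≠ 0) (u : ℝ) : en n u = (n : ℂ) ^ (u * I : ℂ) := by
  unfold en
  rw [Complex.cpow_def_of_ne_zero (by exact_mod_cast hn), Complex.ofReal_log (Nat.cast_nonneg n)]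
  congr 1
  push_cast
  ring

theorem au_lseries (u : ℝ) (s : ℂ) (hs : 1 < s.re) :
    LSeriesHasSum (au u) s (riemannZeta (s - u * I)) := by
  have h1 : 1 < (s - u * I).re := by simpa using hs
  have h2 := LSeriesHasSum_one h1
  unfold LSeriesHasSum at h2 ⊢
  have e : LSeries.term (au u) s = LSeries.term 1 (s - u * I) := by
    ext n
    rcases Nat.eq_zero_or_pos n with h0 | h0
    · subst h0; simp
    · rw [LSeries.term_of_ne_zero (by omega), LSeries.term_of_ne_zero (by omega)]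
      unfold au
      rw [if_neg (by omega), en_cpow (by omega)]
      rw [Complex.cpow_sub _ _ (by exact_mod_cast (by omega : n ≠ 0))]
      simp
  rw [e]
  exact h2

/-- weight -/
def rho (τ : ℝ) : ℝ := ((1 + |τ|) ^ 8)⁻¹

theorem rho_nonneg (τ : ℝ) : 0 ≤ rho τ := by unfold rho; positivity

theorem rho_pos (τ : ℝ) : 0 < rho τ := by unfold rho; positivity

theorem rho_cont : Continuous rho := by
  unfold rho
  apply Continuous.inv₀ (by fun_prop)
  intro x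
  positivity

/-- `|ζ(1/2+iτ)|` -/
def zt (τ : ℝ) : ℝ := ‖riemannZeta ((((1 : ℝ) / 2 : ℝ) : ℂ) + τ * I)‖

theorem zt_nonneg (τ : ℝ) : 0 ≤ zt τ := norm_nonneg _

theorem zt_le (τ : ℝ) : zt τ ≤ 3 + |τ| := Pool.Agent.TH158.FM.zb_true τ

theorem zt_cont : Continuous zt := by
  unfold zt
  apply Continuous.norm
  rw [continuous_iff_continuousAt]
  intro τ
  have h1 : (((1 : ℝ) / 2 : ℝ) : ℂ) + τ * I ≠ 1 := by
    intro h
    have := congrArg Complex.re h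
    simp at this
  have h2 := (differentiableAt_riemannZeta h1).continuousAt
  exact ContinuousAt.comp (f := fun τ : ℝ => (((1 : ℝ) / 2 : ℝ) : ℂ) + τ * I) h2 (by fun_prop)

theorem zt_neg (τ : ℝ) : zt (-τ) = zt τ := by
  unfold zt
  have : ((((1 : ℝ) / 2 : ℝ) : ℂ) + (-τ : ℝ) * I) =
      (starRingEnd ℂ) ((((1 : ℝ) / 2 : ℝ) : ℂ) + τ * I) := by
    apply Complex.ext <;> simp
  rw [this, riemannZeta_conj, RCLike.norm_conj]

/-- polynomially bounded continuous functions are integrable against the shifted weight -/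
theorem rho_int {f : ℝ → ℝ} (hf : Continuous f) {A : ℝ} (hb : ∀ τ, |f τ| ≤ A * (1 + |τ|) ^ 5) (u : ℝ) :
    Integrable (fun τ : ℝ => rho (τ + u) * f τ) := by
  have hA : 0 ≤ A := by
    have := (abs_nonneg (f 0)).trans (hb 0)
    simpa using this
  have hw : Integrable (fun τ : ℝ => A * (1 + |u|) ^ 8 * (1 + ‖τ‖) ^ (-(2 : ℝ))) :=
    Pool.Agent.H777R2.SM.integrable_weight.const_mul _
  refine hw.mono' ((rho_cont.comp (by fun_prop)).mul hf).aestronglyMeasurable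
    (Eventually.of_forall fun τ => ?_)
  rw [norm_mul, Real.norm_of_nonneg (rho_nonneg _), Real.norm_eq_abs, Real.norm_eq_abs]
  have h1 : rho (τ + u) ≤ (1 + |u|) ^ 8 * ((1 + |τ|) ^ 8)⁻¹ := by
    unfold rho
    rw [← div_eq_mul_inv, inv_eq_one_div, div_le_div_iff₀ (by positivity) (by positivity), one_mul,
      ← mul_pow]
    have h2 : |τ| ≤ |τ + u| + |u| := by
      have := abs_sub (τ + u) u
      simpa using this
    have h3 := abs_nonneg (τ + u)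
    have h4 := abs_nonneg u
    exact pow_le_pow_left₀ (by positivity) (by nlinarith) 8
  have h5 : (1 + |τ|) ^ (-(2 : ℝ)) = ((1 + |τ|) ^ 2)⁻¹ := by
    rw [Real.rpow_neg (by positivity), Real.rpow_two]
  rw [h5]
  have h6 : (1 : ℝ) ≤ 1 + |τ| := by linarith [abs_nonneg τ]
  calc rho (τ + u) * |f τ| ≤ (1 + |u|) ^ 8 * ((1 + |τ|) ^ 8)⁻¹ * (A * (1 + |τ|) ^ 5) := by
        gcongr
        exact hb τ
    _ = A * (1 + |u|) ^ 8 * ((1 + |τ|) ^ 3)⁻¹ := by
        field_simp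
    _ ≤ A * (1 + |u|) ^ 8 * ((1 + |τ|) ^ 2)⁻¹ := by
        have : ((1 + |τ|) ^ 3)⁻¹ ≤ ((1 + |τ|) ^ 2)⁻¹ :=
          inv_anti₀ (by positivity) (pow_le_pow_right₀ h6 (by norm_num))
        gcongr

/-- `J(u) = ∫ (1+|τ+u|)^{-8} |ζ(1/2+iτ)| dτ` -/
def JJ (u : ℝ) : ℝ := ∫ τ : ℝ, rho (τ + u) * zt τ

theorem zt_bd (τ : ℝ) : |zt τ| ≤ 3 * (1 + |τ|) ^ 5 := by
  rw [abs_of_nonneg (zt_nonneg τ)]
  have h := zt_le τ
  have h0 := abs_nonneg τ
  have h1 : 1 + |τ| ≤ (1 + |τ|) ^ 5 := le_self_pow₀ (by linarith) (by norm_num)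
  linarith

theorem JJ_nonneg (u : ℝ) : 0 ≤ JJ u :=
  integral_nonneg fun τ => mul_nonneg (rho_nonneg _) (zt_nonneg _)

/-- the constant for the Gamma function on the line `1/2` -/
def G8 : ℝ := 4 ^ 8 * Real.Gamma ((1 / 2 : ℝ) + (8 : ℕ))

theorem G8_nonneg : 0 ≤ G8 := by
  unfold G8
  have : 0 ≤ Real.Gamma ((1 / 2 : ℝ) + (8 : ℕ)) := (Real.Gamma_pos_of_pos (by positivity)).le
  positivity

theorem gauss_line {c : ℝ} (hc : 1 / 2 ≤ |c|) (hc2 : c ^ 2 ≤ 1) (u : ℝ) :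
    Integrable (fun τ : ℝ => Complex.exp ((((1 + c : ℝ) : ℂ) + τ * I - (1 + u * I)) ^ 2) /
      (((1 + c : ℝ) : ℂ) + τ * I - (1 + u * I))) ∧
    ‖∫ τ : ℝ, Complex.exp ((((1 + c : ℝ) : ℂ) + τ * I - (1 + u * I)) ^ 2) /
      (((1 + c : ℝ) : ℂ) + τ * I - (1 + u * I))‖ ≤ 12 := by
  have hne : ∀ τ : ℝ, ((1 + c : ℝ) : ℂ) + τ * I - (1 + u * I) ≠ 0 := by
    intro τ h
    have := congrArg Complex.re h
    simp at this
    rw [this] at hc
    norm_num at hc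
  have hbd : ∀ τ : ℝ, ‖Complex.exp ((((1 + c : ℝ) : ℂ) + τ * I - (1 + u * I)) ^ 2) /
      (((1 + c : ℝ) : ℂ) + τ * I - (1 + u * I))‖ ≤ 6 * Real.exp (-1 * (τ - u) ^ 2) := by
    intro τ
    rw [norm_div, exp_nrm]
    have e1 : (((1 + c : ℝ) : ℂ) + τ * I).re = 1 + c := by simp
    have e2 : (((1 + c : ℝ) : ℂ) + τ * I).im = τ := by simp
    rw [e1, e2]
    have h1 : 1 / 2 ≤ ‖((1 + c : ℝ) : ℂ) + τ * I - (1 + u * I)‖ := by
      refine hc.trans ?_
      have := Complex.abs_re_le_norm (((1 + c : ℝ) : ℂ) + τ * I - (1 + u * I))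
      simpa using this
    have h2 : Real.exp ((1 + c - 1) ^ 2) ≤ 3 := by
      have : Real.exp ((1 + c - 1) ^ 2) ≤ Real.exp 1 := Real.exp_le_exp.2 (by
        have : (1 + c - 1) ^ 2 = c ^ 2 := by ring
        linarith)
      linarith [Real.exp_one_lt_d9]
    rw [div_le_iff₀ (by linarith)]
    have e3 : -(τ - u) ^ 2 = -1 * (τ - u) ^ 2 := by ring
    rw [e3]
    have h3 := Real.exp_pos (-1 * (τ - u) ^ 2)
    calc Real.exp ((1 + c - 1) ^ 2) * Real.exp (-1 * (τ - u) ^ 2)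
        ≤ 3 * Real.exp (-1 * (τ - u) ^ 2) := by gcongr
      _ = 6 * Real.exp (-1 * (τ - u) ^ 2) * (1 / 2) := by ring
      _ ≤ _ := by gcongr
  have hg : Integrable (fun τ : ℝ => 6 * Real.exp (-1 * (τ - u) ^ 2)) :=
    ((integrable_exp_neg_mul_sq (b := 1) one_pos).comp_sub_right u).const_mul 6
  have hI : Integrable (fun τ : ℝ => Complex.exp ((((1 + c : ℝ) : ℂ) + τ * I - (1 + u * I)) ^ 2) /
      (((1 + c : ℝ) : ℂ) + τ * I - (1 + u * I))) := by
    refine hg.mono' ?_ (Eventually.of_forall hbd)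
    apply Continuous.aestronglyMeasurable
    exact Continuous.div (by fun_prop) (by fun_prop) hne
  refine ⟨hI, ?_⟩
  refine (norm_integral_le_of_norm_le hg (Eventually.of_forall hbd)).trans ?_
  rw [integral_const_mul, integral_sub_right_eq_self (fun x : ℝ => Real.exp (-1 * x ^ 2)) u,
    integral_gaussian]
  have : √(Real.pi / 1) ≤ 2 := by
    rw [div_one, show (2 : ℝ) = √4 by rw [show (4 : ℝ) = 2 ^ 2 by norm_num, Real.sqrt_sq (by norm_num)]]
    exact Real.sqrt_le_sqrt (by linarith [Real.pi_le_four])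
  linarith

/-- the value of the integral on a line -/
theorem line_val {V u : ℝ} (hV : 0 < V) {c : ℝ} (h1 : 1 / 2 ≤ |c|) (hc2 : c ^ 2 ≤ 1) (h2 : -(1 / 2) ≤ c)
    (h3 : c ≤ 1) :
    (∫ τ : ℝ, EV V (((1 + c : ℝ) : ℂ) + τ * I) * riemannZeta (((1 + c : ℝ) : ℂ) + τ * I - u * I)) =
      (∫ τ : ℝ, HV V u (((1 + c : ℝ) : ℂ) + τ * I)) + EV V (1 + u * I) *
        ∫ τ : ℝ, Complex.exp ((((1 + c : ℝ) : ℂ) + τ * I - (1 + u * I)) ^ 2) /
          (((1 + c : ℝ) : ℂ) + τ * I - (1 + u * I)) := by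
  obtain ⟨B, hB⟩ := HV_bound (V := V) (u := u) hV
  have iH : Integrable (fun τ : ℝ => HV V u (((1 + c : ℝ) : ℂ) + τ * I)) :=
    Pool.Agent.H295R2.vertical_integrable (H := HV V u) (a := 1 + c) (B := B)
      (fun s hs => (HV_diffAt hV (by rw [hs]; linarith)).continuousAt)
      (fun s hs => hB s (by rw [hs]; linarith) (by rw [hs]; linarith))
  have ig := (gauss_line h1 hc2 u).1.const_mul (EV V (1 + u * I))
  rw [← integral_const_mul, ← integral_add iH ig]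
  refine integral_congr_ae (Eventually.of_forall fun τ => ?_)
  simp only
  have hne : ((1 + c : ℝ) : ℂ) + τ * I ≠ 1 + u * I := by
    intro h
    have := congrArg Complex.re h
    simp at this
    rw [this] at h1
    norm_num at h1
  rw [HV_eq hne]
  ring

theorem ker_shift {V u : ℝ} (hV : 0 < V) :
    ‖∫ τ : ℝ, EV V (((1 + 1 : ℝ) : ℂ) + τ * I) * riemannZeta (((1 + 1 : ℝ) : ℂ) + τ * I - u * I)‖ ≤
      ‖∫ τ : ℝ, EV V (((1 + -(1 / 2) : ℝ) : ℂ) + τ * I) *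
        riemannZeta (((1 + -(1 / 2) : ℝ) : ℂ) + τ * I - u * I)‖ + 24 * ‖EV V (1 + u * I)‖ := by
  obtain ⟨B, hB⟩ := HV_bound (V := V) (u := u) hV
  have hshift := Pool.Agent.H295R2.contour_shift (H := HV V u) (a := 1 + -(1 / 2)) (b := 1 + 1)
    (B := B) (by norm_num) (fun s hs _ => HV_diffAt hV (by linarith))
    (fun s hs hs' => hB s (by linarith) (by linarith))
  have a1 : (1 / 2 : ℝ) ≤ |(-(1 / 2) : ℝ)| := by rw [abs_neg]; norm_num
  have a2 : (1 / 2 : ℝ) ≤ |(1 : ℝ)| := by norm_num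
  rw [line_val hV a1 (by norm_num) le_rfl (by norm_num), line_val hV a2 (by norm_num) (by norm_num) le_rfl]
  have g1 := (gauss_line a1 (by norm_num) u).2
  have g2 := (gauss_line a2 (by norm_num) u).2
  set X1 := ∫ τ : ℝ, Complex.exp ((((1 + -(1 / 2) : ℝ) : ℂ) + τ * I - (1 + u * I)) ^ 2) /
          (((1 + -(1 / 2) : ℝ) : ℂ) + τ * I - (1 + u * I)) with hX1
  set X2 := ∫ τ : ℝ, Complex.exp ((((1 + 1 : ℝ) : ℂ) + τ * I - (1 + u * I)) ^ 2) /
          (((1 + 1 : ℝ) : ℂ) + τ * I - (1 + u * I)) with hX2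
  rw [hshift]
  set Y := ∫ τ : ℝ, HV V u (((1 + 1 : ℝ) : ℂ) + τ * I) with hY
  have e : Y + EV V (1 + u * I) * X2 = (Y + EV V (1 + u * I) * X1) + EV V (1 + u * I) * (X2 - X1) := by
    ring
  rw [e]
  refine (norm_add_le _ _).trans ?_
  rw [norm_mul (EV V (1 + u * I))]
  have h4 : ‖X2 - X1‖ ≤ 24 := (norm_sub_le _ _).trans (by linarith)
  have h5 := norm_nonneg (EV V (1 + u * I))
  nlinarith

theorem half_bound {V u : ℝ} (hV : 0 < V) :
    ‖∫ τ : ℝ, EV V (((1 + -(1 / 2) : ℝ) : ℂ) + τ * I) *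
        riemannZeta (((1 + -(1 / 2) : ℝ) : ℂ) + τ * I - u * I)‖ ≤ G8 * √V * JJ u := by
  have e0 : (1 + -(1 / 2) : ℝ) = 1 / 2 := by norm_num
  rw [e0]
  have h1 : ∀ τ : ℝ, ‖EV V ((((1 : ℝ) / 2 : ℝ) : ℂ) + τ * I) *
        riemannZeta ((((1 : ℝ) / 2 : ℝ) : ℂ) + τ * I - u * I)‖ ≤
        G8 * √V * (rho ((τ - u) + u) * zt (τ - u)) := by
    intro τ
    have e1 : (((1 : ℝ) / 2 : ℝ) : ℂ) + τ * I - u * I = (((1 : ℝ) / 2 : ℝ) : ℂ) + ((τ - u : ℝ) : ℂ) * I := by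
      push_cast; ring
    rw [e1, norm_mul]
    unfold EV
    rw [norm_mul, Pool.Agent.H777R2.SM.norm_cpow_line V hV, ← Real.sqrt_eq_rpow]
    have h2 := Pool.Agent.H777R2.SM.Gamma_line_bound (1 / 2) le_rfl 8 τ
    have h3 : ‖Complex.Gamma ((((1 : ℝ) / 2 : ℝ) : ℂ) + τ * I)‖ ≤ G8 * rho τ := by
      refine h2.trans (le_of_eq ?_)
      unfold G8 rho
      rw [div_eq_mul_inv]
    rw [sub_add_cancel]
    have h4 : ‖riemannZeta ((((1 : ℝ) / 2 : ℝ) : ℂ) + ((τ - u : ℝ) : ℂ) * I)‖ = zt (τ - u) := rfl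
    rw [h4]
    calc ‖Complex.Gamma ((((1 : ℝ) / 2 : ℝ) : ℂ) + τ * I)‖ * √V * zt (τ - u)
        ≤ (G8 * rho τ) * √V * zt (τ - u) := by
          have := zt_nonneg (τ - u)
          gcongr
      _ = _ := by ring
  have hi0 : Integrable (fun τ : ℝ => rho (τ + u) * zt τ) := rho_int zt_cont zt_bd u
  have hi : Integrable (fun τ : ℝ => G8 * √V * (rho ((τ - u) + u) * zt (τ - u))) :=
    (hi0.comp_sub_right u).const_mul _
  refine (norm_integral_le_of_norm_le hi (Eventually.of_forall h1)).trans (le_of_eq ?_)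
  rw [integral_const_mul, integral_sub_right_eq_self (fun x : ℝ => rho (x + u) * zt x) u]
  rfl

theorem ker_bound : ∃ C : ℝ, 1 ≤ C ∧ ∀ V u : ℝ, 0 < V →
    ‖KV V u‖ ≤ C * (V / (1 + |u|) + √V * JJ u) := by
  refine ⟨96 + G8, by linarith [G8_nonneg], fun V u hV => ?_⟩
  have h0 := Pool.Agent.H204R2.EM.sum_eq_int (au u) (fun s => riemannZeta (s - u * I))
    (by simp [au]) (au_lseries u) 0 V hV
  have e1 : KV V u = ((1 / (2 * Real.pi) : ℝ) : ℂ) *
      ∫ τ : ℝ, EV V (((1 + 1 : ℝ) : ℂ) + τ * I) * riemannZeta (((1 + 1 : ℝ) : ℂ) + τ * I - u * I) := by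
    unfold KV
    have e2 : ∀ n : ℕ, au u n * ((Real.exp (-((n : ℝ) / V)) : ℝ) : ℂ) =
        au u n * (((n : ℝ) ^ 0 * Real.exp (-((n : ℝ) / V)) : ℝ) : ℂ) := by
      intro n; rw [pow_zero, one_mul]
    rw [tsum_congr e2, h0, pow_zero]
    congr 1
    refine integral_congr_ae (Eventually.of_forall fun τ => ?_)
    have e3 : (1 + 1 : ℝ) = 2 := by norm_num
    simp only [e3, Nat.cast_zero, add_zero]
    unfold EV
    ring
  rw [e1, norm_mul, Complex.norm_real, Real.norm_of_nonneg (by positivity)]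
  have h2 := ker_shift (u := u) hV
  have h3 := half_bound (u := u) hV
  have h4 : ‖EV V (1 + u * I)‖ ≤ 4 * (V / (1 + |u|)) := by
    unfold EV
    have e4 : (1 + u * I : ℂ) = ((1 : ℝ) : ℂ) + u * I := by push_cast; ring
    rw [e4, norm_mul, Pool.Agent.H777R2.SM.norm_cpow_line V hV, Real.rpow_one]
    have h5 := Pool.Agent.H777R2.SM.Gamma_line_bound 1 (by norm_num) 1 u
    have h6 : Real.Gamma (1 + (1 : ℕ)) = 1 := by
      rw [Nat.cast_one, show (1 + 1 : ℝ) = 2 by norm_num, Real.Gamma_two]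
    rw [h6, pow_one, mul_one, pow_one] at h5
    calc ‖Complex.Gamma (((1 : ℝ) : ℂ) + u * I)‖ * V ≤ (4 / (1 + |u|)) * V := by gcongr
      _ = _ := by ring
  have h7 : 1 / (2 * Real.pi) ≤ 1 := by
    rw [div_le_one (by positivity)]
    linarith [Real.pi_gt_three]
  set X := ‖∫ τ : ℝ, EV V (((1 + 1 : ℝ) : ℂ) + τ * I) * riemannZeta (((1 + 1 : ℝ) : ℂ) + τ * I - u * I)‖
  have hX : 0 ≤ X := norm_nonneg _
  have h8 : 1 / (2 * Real.pi) * X ≤ X := by nlinarith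
  have h9 : 0 ≤ V / (1 + |u|) := by positivity
  have h10 : 0 ≤ √V * JJ u := mul_nonneg (Real.sqrt_nonneg _) (JJ_nonneg u)
  have h11 := G8_nonneg
  calc _ ≤ X := h8
    _ ≤ G8 * √V * JJ u + 24 * (4 * (V / (1 + |u|))) := by linarith
    _ = 96 * (V / (1 + |u|)) + G8 * (√V * JJ u) := by ring
    _ ≤ (96 + G8) * (V / (1 + |u|)) + (96 + G8) * (√V * JJ u) := by
        gcongr <;> linarith
    _ = _ := by ring

end

end Pool.Agent.K6.H1.MQ
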