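import Pool.Agent.K6.H1.MQ.Defs
import Pool.Agent.H510R2.Div

/-!
Piece POLY: the differences of the values of a polynomial.
-/

set_option autoImplicit false

namespace Pool.Agent.K6.H1.MQ

open Finset

/-- the polynomial `P(X + d) - P(X) - h` is not zero -/
theorem shift_ne_zero {P : Polynomial ℤ} (hP : 2 ≤ P.natDegree) {d h : ℤ} (hd : d ≠ 0) :
    P.comp (Polynomial.X + Polynomial.C d) - P - Polynomial.C h ≠ 0 := by
  intro h0
  have h1 : ∀ x : ℤ, P.eval (x + d) = P.eval x + h := by
    intro x
    have := congrArg (Polynomial.eval x) h0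
    simp only [Polynomial.eval_sub, Polynomial.eval_comp, Polynomial.eval_add, Polynomial.eval_X,
      Polynomial.eval_C, Polynomial.eval_zero] at this
    linarith
  have h2 : ∀ m : ℕ, P.eval ((m : ℤ) * d) = P.eval 0 + m * h := by
    intro m
    induction m with
    | zero => simp
    | succ m ih =>
      have := h1 ((m : ℤ) * d)
      push_cast
      rw [add_mul, one_mul, this, ih]
      ring
  -- `P(dX) - P(0) - hX` has infinitely many roots
  set Q : Polynomial ℤ := P.comp (Polynomial.C d * Polynomial.X) -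
    Polynomial.C (P.eval 0) - Polynomial.C h * Polynomial.X with hQ
  have hQ0 : Q = 0 := by
    by_contra hne
    have hinf : (Set.range fun m : ℕ => (m : ℤ)).Infinite :=
      Set.infinite_range_of_injective Nat.cast_injective
    apply hinf
    apply (Q.roots.toFinset.finite_toSet).subset
    rintro _ ⟨m, rfl⟩
    rw [Finset.mem_coe, Multiset.mem_toFinset, Polynomial.mem_roots hne, Polynomial.IsRoot.def, hQ]
    simp only [Polynomial.eval_sub, Polynomial.eval_comp, Polynomial.eval_mul, Polynomial.eval_C,
      Polynomial.eval_X]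
    have := h2 m
    rw [mul_comm] at this
    rw [this]
    ring
  have hdeg : (P.comp (Polynomial.C d * Polynomial.X)).natDegree = P.natDegree := by
    rw [Polynomial.natDegree_comp, Polynomial.natDegree_C_mul_X d hd, mul_one]
  have hle : (P.comp (Polynomial.C d * Polynomial.X)).natDegree ≤ 1 := by
    have e : P.comp (Polynomial.C d * Polynomial.X) =
        Polynomial.C h * Polynomial.X + Polynomial.C (P.eval 0) := by
      rw [hQ] at hQ0
      linear_combination hQ0
    rw [e]
    exact Polynomial.natDegree_linear_le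
  omega

/-- POLY -/
theorem poly_all : S_POLY := by
  classical
  intro P hP ε hε
  obtain ⟨C, hC1, hC⟩ := Pool.Agent.H510R2.divisor_bound ε hε
  have hC0 : 0 ≤ C := by linarith
  refine ⟨2 * C * P.natDegree + 1, by
    have : (0 : ℝ) ≤ P.natDegree := Nat.cast_nonneg _
    nlinarith [mul_nonneg hC0 this], ?_⟩
  intro T W hT hW hWP h hh
  set F := (W ×ˢ W).filter (fun p => (p.1 : ℤ) - p.2 = h) with hF
  have hmem : ∀ p ∈ F, p.1 ∈ W ∧ p.2 ∈ W ∧ (p.1 : ℤ) - p.2 = h := by
    intro p hp
    rw [hF, mem_filter, mem_product] at hp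
    exact ⟨hp.1.1, hp.1.2, hp.2⟩
  rcases F.eq_empty_or_nonempty with hemp | hne
  · rw [hemp]
    simp only [card_empty, Nat.cast_zero]
    positivity
  -- size of `h`
  have hhT : h.natAbs ≤ T := by
    obtain ⟨p, hp⟩ := hne
    obtain ⟨h1, h2, h3⟩ := hmem p hp
    have h4 := mem_Icc.1 (hW h1)
    have h5 := mem_Icc.1 (hW h2)
    omega
  have hh0 : h.natAbs ≠ 0 := Int.natAbs_ne_zero.2 hh
  -- the preimages
  set g : ℕ → ℤ := fun t => if ht : ∃ j : ℤ, P.eval j = t then ht.choose else 0 with hg
  have hgP : ∀ t ∈ W, P.eval (g t) = t := by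
    intro t ht
    have hex := hWP t ht
    simp only [hg]
    rw [dif_pos hex]
    exact hex.choose_spec
  -- the divisors
  set Dv : Finset ℤ := (h.natAbs.divisors.image (fun m : ℕ => (m : ℤ))) ∪
    (h.natAbs.divisors.image (fun m : ℕ => -(m : ℤ))) with hDv
  have hDvc : Dv.card ≤ 2 * h.natAbs.divisors.card := by
    calc Dv.card ≤ (h.natAbs.divisors.image (fun m : ℕ => (m : ℤ))).card +
        (h.natAbs.divisors.image (fun m : ℕ => -(m : ℤ))).card := card_union_le _ _
      _ ≤ h.natAbs.divisors.card + h.natAbs.divisors.card :=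
        add_le_add card_image_le card_image_le
      _ = _ := by ring
  have hDvmem : ∀ d : ℤ, d ∣ h → d ∈ Dv := by
    intro d hd
    have h1 : d.natAbs ∈ h.natAbs.divisors :=
      Nat.mem_divisors.2 ⟨Int.natAbs_dvd_natAbs.2 hd, hh0⟩
    rw [hDv, mem_union, mem_image, mem_image]
    rcases Int.natAbs_eq d with h2 | h2
    · exact Or.inl ⟨_, h1, h2.symm⟩
    · exact Or.inr ⟨_, h1, h2.symm⟩
  set Rt : ℤ → Finset ℤ := fun d =>
    (P.comp (Polynomial.X + Polynomial.C d) - P - Polynomial.C h).roots.toFinset with hRt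
  have hRtc : ∀ d, (Rt d).card ≤ P.natDegree := by
    intro d
    calc (Rt d).card ≤ Multiset.card
          (P.comp (Polynomial.X + Polynomial.C d) - P - Polynomial.C h).roots :=
          Multiset.toFinset_card_le _
      _ ≤ (P.comp (Polynomial.X + Polynomial.C d) - P - Polynomial.C h).natDegree :=
          Polynomial.card_roots' _
      _ ≤ P.natDegree := by
          refine (Polynomial.natDegree_sub_le _ _).trans (max_le ?_ ?_)
          · refine (Polynomial.natDegree_sub_le _ _).trans (max_le ?_ le_rfl)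
            rw [Polynomial.natDegree_comp, Polynomial.natDegree_X_add_C, mul_one]
          · rw [Polynomial.natDegree_C]; omega
  have hinj : F.card ≤ (Dv.sigma Rt).card := by
    apply Finset.card_le_card_of_injOn (fun p => (⟨g p.1 - g p.2, g p.2⟩ : Σ _ : ℤ, ℤ))
    · intro p hp
      obtain ⟨h1, h2, h3⟩ := hmem p hp
      have e1 := hgP _ h1
      have e2 := hgP _ h2
      have hdh : P.eval (g p.1) - P.eval (g p.2) = h := by rw [e1, e2]; exact h3
      have hne : g p.1 - g p.2 ≠ 0 := by
        intro h0
        have : g p.1 = g p.2 := by linarith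
        rw [this, sub_self] at hdh
        exact hh hdh.symm
      rw [Finset.mem_coe, mem_sigma]
      refine ⟨hDvmem _ ?_, ?_⟩
      · rw [← hdh]
        exact Polynomial.sub_dvd_eval_sub _ _ _
      · simp only [hRt]
        rw [Multiset.mem_toFinset, Polynomial.mem_roots (shift_ne_zero hP hne),
          Polynomial.IsRoot.def]
        simp only [Polynomial.eval_sub, Polynomial.eval_comp, Polynomial.eval_add,
          Polynomial.eval_X, Polynomial.eval_C]
        rw [add_sub_cancel]
        linarith
    · intro p hp p' hp' hpp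
      obtain ⟨h1, h2, _⟩ := hmem p hp
      obtain ⟨h1', h2', _⟩ := hmem p' hp'
      simp only [Sigma.mk.injEq, heq_eq_eq] at hpp
      have a2 : g p.2 = g p'.2 := hpp.2
      have a1 : g p.1 = g p'.1 := by linarith [hpp.1]
      have b1 : (p.1 : ℤ) = p'.1 := by rw [← hgP _ h1, ← hgP _ h1', a1]
      have b2 : (p.2 : ℤ) = p'.2 := by rw [← hgP _ h2, ← hgP _ h2', a2]
      exact Prod.ext (by exact_mod_cast b1) (by exact_mod_cast b2)
  have hcount : F.card ≤ 2 * h.natAbs.divisors.card * P.natDegree := by
    calc F.card ≤ (Dv.sigma Rt).card := hinj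
      _ = ∑ d ∈ Dv, (Rt d).card := card_sigma _ _
      _ ≤ ∑ _d ∈ Dv, P.natDegree := sum_le_sum fun d _ => hRtc d
      _ = Dv.card * P.natDegree := by rw [sum_const, smul_eq_mul]
      _ ≤ _ := Nat.mul_le_mul_right _ hDvc
  have hdiv : (h.natAbs.divisors.card : ℝ) ≤ C * (T : ℝ) ^ ε := by
    refine (hC h.natAbs (by omega)).trans ?_
    apply mul_le_mul_of_nonneg_left _ hC0
    apply Real.rpow_le_rpow (by positivity) (by exact_mod_cast hhT) hε.le
  calc (F.card : ℝ) ≤ ((2 * h.natAbs.divisors.card * P.natDegree : ℕ) : ℝ) := by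
        exact_mod_cast hcount
    _ = 2 * h.natAbs.divisors.card * P.natDegree := by push_cast; ring
    _ ≤ 2 * (C * (T : ℝ) ^ ε) * P.natDegree := by
        apply mul_le_mul_of_nonneg_right _ (Nat.cast_nonneg _)
        linarith
    _ = (2 * C * P.natDegree) * (T : ℝ) ^ ε := by ring
    _ ≤ (2 * C * P.natDegree + 1) * (T : ℝ) ^ ε := by
        apply mul_le_mul_of_nonneg_right _ (by positivity)
        linarith

end Pool.Agent.K6.H1.MQ
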