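import Pool.Agent.K6.H1.MQ.Defs
import Pool.Agent.H510R2.Div

/-!
Piece POW: powers of Dirichlet polynomials.
-/

set_option autoImplicit false

namespace Pool.Agent.K6.H1.MQ

open Finset

theorem en_mul {m n : ℕ} (hm : 1 ≤ m) (hn : 1 ≤ n) (t : ℝ) : en (m * n) t = en m t * en n t := by
  unfold en
  rw [← Complex.exp_add]
  congr 1
  have h1 : Real.log ((m * n : ℕ) : ℝ) = Real.log m + Real.log n := by
    push_cast
    rw [Real.log_mul (by positivity) (by positivity)]
  rw [h1]
  push_cast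
  ring

theorem en_one (t : ℝ) : en 1 t = 1 := by
  simp [en]

/-- the coefficients of the power -/
noncomputable def ck (N : ℕ) (b : ℕ → ℂ) : ℕ → ℕ → ℂ
  | 0, n => if n = 1 then 1 else 0
  | k + 1, n => ∑ m ∈ n.divisors.filter (fun m => n / m ∈ Icc N (2 * N)), ck N b k m * b (n / m)

theorem ck_zero_of {N : ℕ} (hN : 1 ≤ N) (b : ℕ → ℂ) (k : ℕ) :
    ∀ n, n ∉ Icc 1 ((2 * N) ^ k) → ck N b k n = 0 := by
  induction k with
  | zero =>
    intro n hn
    unfold ck
    rw [if_neg]
    rintro rfl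
    exact hn (by simp)
  | succ k ih =>
    intro n hn
    unfold ck
    apply Finset.sum_eq_zero
    intro m hm
    rw [mem_filter, Nat.mem_divisors, mem_Icc] at hm
    obtain ⟨⟨hmn, hn0⟩, h1, h2⟩ := hm
    have hm0 : m ∉ Icc 1 ((2 * N) ^ k) := by
      intro hm
      rw [mem_Icc] at hm
      apply hn
      rw [mem_Icc]
      refine ⟨Nat.one_le_iff_ne_zero.2 hn0, ?_⟩
      calc n = m * (n / m) := (Nat.mul_div_cancel' hmn).symm
        _ ≤ (2 * N) ^ k * (2 * N) := Nat.mul_le_mul hm.2 h2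
        _ = _ := (pow_succ _ _).symm
    rw [ih m hm0, zero_mul]

theorem ck_bound {N : ℕ} {b : ℕ → ℂ} (hb : ∀ n ∈ Icc N (2 * N), ‖b n‖ ≤ 1) (k : ℕ) :
    ∀ n, 1 ≤ n → ‖ck N b k n‖ ≤ (n.divisors.card : ℝ) ^ k := by
  induction k with
  | zero =>
    intro n _
    unfold ck
    split_ifs <;> simp
  | succ k ih =>
    intro n hn
    unfold ck
    calc ‖∑ m ∈ n.divisors.filter (fun m => n / m ∈ Icc N (2 * N)), ck N b k m * b (n / m)‖
        ≤ ∑ m ∈ n.divisors.filter (fun m => n / m ∈ Icc N (2 * N)), ‖ck N b k m * b (n / m)‖ :=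
          norm_sum_le _ _
      _ ≤ ∑ _m ∈ n.divisors.filter (fun m => n / m ∈ Icc N (2 * N)),
            (n.divisors.card : ℝ) ^ k := by
          apply Finset.sum_le_sum
          intro m hm
          rw [mem_filter, Nat.mem_divisors] at hm
          obtain ⟨⟨hmn, hn0⟩, h1⟩ := hm
          have hm1 : 1 ≤ m := Nat.pos_of_dvd_of_pos hmn hn
          rw [norm_mul]
          have h2 := ih m hm1
          have h3 := hb _ h1
          have h4 : (m.divisors.card : ℝ) ≤ n.divisors.card := by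
            exact_mod_cast Finset.card_le_card (Nat.divisors_subset_of_dvd hn0 hmn)
          have h5 : (m.divisors.card : ℝ) ^ k ≤ (n.divisors.card : ℝ) ^ k :=
            pow_le_pow_left₀ (by positivity) h4 k
          calc ‖ck N b k m‖ * ‖b (n / m)‖ ≤ (n.divisors.card : ℝ) ^ k * 1 :=
                mul_le_mul (h2.trans h5) h3 (norm_nonneg _) (by positivity)
            _ = _ := mul_one _
      _ = ((n.divisors.filter (fun m => n / m ∈ Icc N (2 * N))).card : ℝ) *
            (n.divisors.card : ℝ) ^ k := by rw [sum_const, nsmul_eq_mul]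
      _ ≤ (n.divisors.card : ℝ) * (n.divisors.card : ℝ) ^ k := by
          apply mul_le_mul_of_nonneg_right _ (by positivity)
          exact_mod_cast Finset.card_filter_le _ _
      _ = _ := by rw [pow_succ, mul_comm]

theorem pow_eq {N : ℕ} (hN : 1 ≤ N) (b : ℕ → ℂ) (t : ℝ) (k : ℕ) :
    DD N b t ^ k = ∑ n ∈ Icc 1 ((2 * N) ^ k), ck N b k n * en n t := by
  classical
  induction k with
  | zero =>
    rw [pow_zero, pow_zero, Icc_self, sum_singleton, en_one, mul_one]
    unfold ck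
    rw [if_pos rfl]
  | succ k ih =>
    rw [pow_succ, ih]
    unfold DD
    rw [sum_mul_sum, ← sum_product']
    have h1 : ∀ n ∈ Icc 1 ((2 * N) ^ (k + 1)), ck N b (k + 1) n * en n t =
        ∑ m ∈ n.divisors.filter (fun m => n / m ∈ Icc N (2 * N)),
          (ck N b k m * en m t) * (b (n / m) * en (n / m) t) := by
      intro n hn
      rw [ck, sum_mul]
      apply Finset.sum_congr rfl
      intro m hm
      rw [mem_filter, Nat.mem_divisors, mem_Icc] at hm
      obtain ⟨⟨hmn, hn0⟩, h1, h2⟩ := hm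
      have hm1 : 1 ≤ m := Nat.pos_of_dvd_of_pos hmn (Nat.pos_of_ne_zero hn0)
      have e : en n t = en m t * en (n / m) t := by
        rw [← en_mul hm1 (hN.trans h1), Nat.mul_div_cancel' hmn]
      rw [e]
      ring
    rw [sum_congr rfl h1, sum_sigma']
    symm
    have hsub : ∀ x ∈ (Icc 1 ((2 * N) ^ (k + 1))).sigma
        (fun n => n.divisors.filter (fun m => n / m ∈ Icc N (2 * N))),
        x.2 ∉ Icc 1 ((2 * N) ^ k) →
          (ck N b k x.2 * en x.2 t) * (b (x.1 / x.2) * en (x.1 / x.2) t) = 0 := by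
      intro x _ hx
      rw [ck_zero_of hN b k _ hx]
      ring
    rw [← Finset.sum_filter_add_sum_filter_not _ (fun x : Σ _ : ℕ, ℕ => x.2 ∈ Icc 1 ((2 * N) ^ k))]
    rw [Finset.sum_eq_zero (s := Finset.filter (fun x : Σ _ : ℕ, ℕ => ¬ x.2 ∈ Icc 1 ((2 * N) ^ k)) _)
      (fun x hx => hsub x (mem_filter.1 hx).1 (mem_filter.1 hx).2), add_zero]
    refine Finset.sum_bij' (fun x _ => (x.2, x.1 / x.2)) (fun p _ => ⟨p.1 * p.2, p.1⟩)
      ?_ ?_ ?_ ?_ ?_
    · intro x hx
      rw [mem_filter, mem_sigma, mem_filter] at hx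
      rw [mem_product]
      exact ⟨hx.2, hx.1.2.2⟩
    · intro p hp
      rw [mem_product, mem_Icc, mem_Icc] at hp
      obtain ⟨⟨h1, h2⟩, h3, h4⟩ := hp
      have hp2 : 1 ≤ p.2 := hN.trans h3
      rw [mem_filter, mem_sigma, mem_filter, mem_Icc, Nat.mem_divisors, mem_Icc, mem_Icc]
      simp only
      rw [Nat.mul_div_cancel_left _ (by omega : 0 < p.1)]
      refine ⟨⟨⟨Nat.mul_pos h1 hp2, ?_⟩, ⟨dvd_mul_right _ _, by positivity⟩, h3, h4⟩, h1, h2⟩
      rw [pow_succ]
      exact Nat.mul_le_mul h2 h4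
    · intro x hx
      rw [mem_filter, mem_sigma, mem_filter, Nat.mem_divisors] at hx
      have := Nat.mul_div_cancel' hx.1.2.1.1
      exact Sigma.ext this HEq.rfl
    · intro p hp
      rw [mem_product, mem_Icc, mem_Icc] at hp
      simp only
      rw [Nat.mul_div_cancel_left _ (by omega : 0 < p.1)]
    · intro x _
      rfl

/-- POW -/
theorem pow_all : S_POW := by
  intro k ε hε
  -- divisor bound with a small exponent
  set δ : ℝ := ε / ((k : ℝ) * k + 1) with hδ
  have hk0 : (0 : ℝ) ≤ (k : ℝ) * k := by positivity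
  have hδ0 : 0 < δ := by positivity
  obtain ⟨C, hC0, hC⟩ := Pool.Agent.H510R2.divisor_bound δ hδ0
  set C1 : ℝ := max C 1 with hC1
  have hC11 : 1 ≤ C1 := le_max_right _ _
  set M : ℝ := (C1 * 2 ^ (δ * k)) ^ k with hM
  have h2 : (1 : ℝ) ≤ 2 ^ (δ * k) := Real.one_le_rpow (by norm_num) (by positivity)
  have hbase : 1 ≤ C1 * 2 ^ (δ * k) := by nlinarith
  have hM1 : 1 ≤ M := one_le_pow₀ hbase
  refine ⟨M, hM1, ?_⟩
  intro N b hN hb
  have hNr : (1 : ℝ) ≤ N := by exact_mod_cast hN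
  refine ⟨ck N b k, ?_, fun t => pow_eq hN b t k⟩
  intro n
  by_cases hn : n ∈ Icc 1 ((2 * N) ^ k)
  · have hn' := mem_Icc.1 hn
    refine (ck_bound hb k n hn'.1).trans ?_
    have hnr : (n : ℝ) ≤ ((2 : ℝ) * N) ^ k := by exact_mod_cast hn'.2
    have h3 : (n.divisors.card : ℝ) ≤ C1 * 2 ^ (δ * k) * (N : ℝ) ^ (δ * k) := by
      calc (n.divisors.card : ℝ) ≤ C * (n : ℝ) ^ δ := hC n hn'.1
        _ ≤ C1 * (((2 : ℝ) * N) ^ k) ^ δ := by
            apply mul_le_mul (le_max_left _ _) _ (by positivity) (by positivity)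
            exact Real.rpow_le_rpow (by positivity) hnr hδ0.le
        _ = C1 * 2 ^ (δ * k) * (N : ℝ) ^ (δ * k) := by
            rw [← Real.rpow_natCast, ← Real.rpow_mul (by positivity), mul_comm (k : ℝ) δ,
              Real.mul_rpow (by norm_num) (by positivity)]
            ring
    calc (n.divisors.card : ℝ) ^ k ≤ (C1 * 2 ^ (δ * k) * (N : ℝ) ^ (δ * k)) ^ k :=
          pow_le_pow_left₀ (by positivity) h3 k
      _ = M * ((N : ℝ) ^ (δ * k)) ^ k := by rw [mul_pow]
      _ = M * (N : ℝ) ^ (δ * k * k) := by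
          rw [← Real.rpow_natCast ((N : ℝ) ^ (δ * k)), ← Real.rpow_mul (by positivity)]
      _ ≤ M * (N : ℝ) ^ ε := by
          apply mul_le_mul_of_nonneg_left _ (by positivity)
          apply Real.rpow_le_rpow_of_exponent_le hNr
          rw [hδ, mul_assoc, div_mul_eq_mul_div, div_le_iff₀ (by positivity)]
          nlinarith
  · rw [ck_zero_of hN b k n hn, norm_zero]
    positivity

end Pool.Agent.K6.H1.MQ
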